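import Pool.Agent.MP_28f8a1_an.Meas

/-! The Bieberbach inequality for the second coefficient of a univalent function. -/

set_option autoImplicit false

namespace Pool.Agent.MP_28f8a1_an

open MeasureTheory Metric Set Real Filter Topology
open scoped ENNReal ComplexConjugate

/-- Univalent maps: holomorphic, injective, with non-vanishing derivative. -/
structure Univ (F : ℂ → ℂ) (S : Set ℂ) : Prop where
  diff : DifferentiableOn ℂ F S
  inj : InjOn F S
  ne : ∀ z ∈ S, deriv F z ≠ 0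

theorem Univ.mono {F : ℂ → ℂ} {S T : Set ℂ} (h : Univ F S) (hT : T ⊆ S) : Univ F T :=
  ⟨h.diff.mono hT, h.inj.mono hT, fun z hz => h.ne z (hT hz)⟩

theorem LI_lower {u : ℂ → ℝ} {x : ℂ} {A : Set ℝ} (hA : MeasurableSet A) (hA0 : A ⊆ Ioi 0)
    (hu : ContinuousOn u {z | ‖z - x‖ ∈ A}) {m : ℝ → ℝ}
    (h : ∀ r ∈ A, ∃ Φ : ℂ → ℂ, DiffContOnCl ℂ Φ (ball x r) ∧
      (∀ z, ‖z - x‖ = r → (Φ z).re ≤ u z) ∧ m r ≤ (Φ x).re) :
    ∫⁻ r in A, ENNReal.ofReal (2 * π * (r * m r)) ≤ LI {z | ‖z - x‖ ∈ A} u := by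
  classical
  have hm : MeasurableSet {z : ℂ | ‖z - x‖ ∈ A} :=
    (show Measurable fun z : ℂ => ‖z - x‖ by fun_prop) hA
  have h1 : LI {z | ‖z - x‖ ∈ A} u =
      LI {z | ‖z - x‖ ∈ A} (piecewise {z | ‖z - x‖ ∈ A} u (fun _ => 0)) :=
    setLIntegral_congr_fun hm fun z hz => by simp only [piecewise_eq_of_mem _ _ _ hz]
  rw [h1, LI_polar (hu.measurable_piecewise continuousOn_const hm) x hA hA0]
  refine setLIntegral_mono' hA fun r hr => ?_
  obtain ⟨Φ, hΦ, h2, h3⟩ := h r hr
  have hr0 : 0 < r := hA0 hr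
  rw [show 2 * π * (r * m r) = r * (2 * π * m r) by ring, ENNReal.ofReal_mul hr0.le]
  refine mul_le_mul_right ?_ _
  refine le_trans (ENNReal.ofReal_le_ofReal ?_) (circ_lower hr0 hΦ fun z hz => ?_)
  · gcongr
  · rw [piecewise_eq_of_mem _ _ _ (by simpa only [mem_ofPred_eq, hz] using hr)]
    exact h2 z hz

theorem dslope_eq (F : ℂ → ℂ) (v : ℂ) : F v = F 0 + v * dslope F 0 v := by
  have := sub_smul_dslope F 0 v
  rw [sub_zero, smul_eq_mul] at this
  rw [this]
  ring

theorem diff_dslope {F : ℂ → ℂ} {R : ℝ} (hR : 0 < R) (hF : DifferentiableOn ℂ F (ball 0 R)) :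
    DifferentiableOn ℂ (dslope F 0) (ball 0 R) :=
  (Complex.differentiableOn_dslope (ball_mem_nhds 0 hR)).mpr hF

theorem sq_lower (Q0 a w v : ℂ) :
    ((‖Q0‖ ^ 2 - ‖v‖ ^ 2 * ‖a‖ ^ 2 : ℝ) + 2 * conj Q0 * (v * w) +
      2 * (‖v‖ ^ 2 : ℝ) * conj a * w).re ≤ ‖Q0 + v * w‖ ^ 2 := by
  have h := mul_nonneg (sq_nonneg ‖v‖) (sq_nonneg ‖w - a‖)
  simp only [← Complex.normSq_eq_norm_sq, Complex.normSq_apply] at h ⊢
  simp at h ⊢
  nlinarith [h]

theorem lint_calc {δ ρ β : ℝ} (hδ : 0 < δ) (hδρ : δ ≤ ρ) (hβ : 0 ≤ β) :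
    ∫⁻ r in Ioo δ ρ, ENNReal.ofReal (2 * π * (r * ((1 + β * r ^ 2) / r ^ 3))) =
      ENNReal.ofReal (2 * π * (δ⁻¹ - ρ⁻¹ + β * (ρ - δ))) := by
  have hc : ContinuousOn (fun r : ℝ => 2 * π * (r * ((1 + β * r ^ 2) / r ^ 3))) (Icc δ ρ) := by
    refine ContinuousOn.mul continuousOn_const (ContinuousOn.mul continuousOn_id ?_)
    refine ContinuousOn.div (by fun_prop) (by fun_prop) fun r hr => ?_
    have := hδ.trans_le hr.1
    positivity
  rw [← ofReal_integral_eq_lintegral_ofReal, ← integral_Ioc_eq_integral_Ioo,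
    ← intervalIntegral.integral_of_le hδρ,
    intervalIntegral.integral_eq_sub_of_hasDerivAt (f := fun r => 2 * π * (-r⁻¹ + β * r))]
  · congr 1
    ring
  · intro r hr
    rw [uIcc_of_le hδρ] at hr
    have hr0 := hδ.trans_le hr.1
    refine (((hasDerivAt_inv hr0.ne').neg.add ((hasDerivAt_id r).const_mul β)).const_mul
      (2 * π)).congr_deriv ?_
    field_simp
  · exact ContinuousOn.intervalIntegrable (by rwa [uIcc_of_le hδρ])
  · exact hc.integrableOn_Icc.mono_set Ioo_subset_Icc_self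
  · filter_upwards [ae_restrict_mem measurableSet_Ioo] with r hr
    have := hδ.trans hr.1
    positivity

/-- The area-type inequality: if `p(v)/v` is injective on the punctured disc and `p` has no
zeros, `p 0 = 1`, then `|p'(0)| ≤ 2`. -/
theorem area_aux {p : ℂ → ℂ} (hp : DifferentiableOn ℂ p (ball 0 1)) (hp0 : p 0 = 1)
    (hne : ∀ v ∈ ball (0 : ℂ) 1, p v ≠ 0) (hinj : InjOn (fun v => p v / v) (ball 0 1 \ {0})) :
    ‖deriv p 0‖ ≤ 2 := by
  obtain ⟨L, hL, hLp⟩ := exists_log hp hne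
  set b := deriv p 0 with hb
  set Q : ℂ → ℂ := fun v => (v * deriv p v - p v) * Complex.exp (-L v / 2) with hQ
  have hp' : DifferentiableOn ℂ (deriv p) (ball 0 1) := hp.deriv isOpen_ball
  have hQd : DifferentiableOn ℂ Q (ball 0 1) :=
    ((differentiableOn_id.mul hp').sub hp).mul (hL.neg.div_const 2).cexp
  have h01 : (0 : ℂ) ∈ ball (0 : ℂ) 1 := mem_ball_self one_pos
  have hn : ball (0 : ℂ) 1 ∈ 𝓝 (0 : ℂ) := ball_mem_nhds 0 one_pos
  have hexp : ∀ v ∈ ball (0 : ℂ) 1, ‖Complex.exp (-L v / 2)‖ ^ 2 = ‖p v‖⁻¹ := by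
    intro v hv
    rw [← norm_pow, ← Complex.exp_nat_mul, ← hLp v hv, ← norm_inv, ← Complex.exp_neg]
    congr 2
    push_cast
    ring
  have he : ‖Complex.exp (-L 0 / 2)‖ = 1 := by
    have := hexp 0 h01
    rw [hp0, norm_one, inv_one] at this
    nlinarith [norm_nonneg (Complex.exp (-L 0 / 2))]
  have hL' : deriv L 0 = b := by
    have h1 : HasDerivAt (fun v => Complex.exp (L v)) (Complex.exp (L 0) * deriv L 0) 0 :=
      (hL.hasDerivAt hn).cexp
    have h2 : (fun v => Complex.exp (L v)) =ᶠ[𝓝 0] p := by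
      filter_upwards [hn] with v hv using hLp v hv
    have h3 := (h1.congr_of_eventuallyEq h2.symm).deriv
    rw [hLp 0 h01, hp0, one_mul] at h3
    exact h3.symm
  have hQ0 : ‖Q 0‖ = 1 := by simp [hQ, hp0, he]
  have hQ1 : ‖dslope Q 0 0‖ = ‖b‖ / 2 := by
    have h1 := (((hasDerivAt_id (0 : ℂ)).mul (hp'.hasDerivAt hn)).sub (hp.hasDerivAt hn)).mul
      ((hL.hasDerivAt hn).neg.div_const 2).cexp
    have h2 : deriv Q 0 = Complex.exp (-L 0 / 2) * (b / 2) := by
      refine h1.deriv.trans ?_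
      simp [hp0, hL', ← hb]
      ring
    rw [dslope_same, h2, norm_mul, he, one_mul, norm_div]
    simp
  set β : ℝ := (‖b‖ / 2) ^ 2 with hβ
  have hβ0 : 0 ≤ β := by positivity
  have key : ∀ ρ ∈ Ioo (0 : ℝ) 1, β * ρ - ρ⁻¹ ≤ 0 := by
    intro ρ hρ
    have hp2 : DifferentiableOn ℂ (dslope (dslope p 0) 0) (ball 0 1) :=
      diff_dslope one_pos (diff_dslope one_pos hp)
    obtain ⟨C, hC⟩ := (isCompact_closedBall (0 : ℂ) ρ).exists_bound_of_continuousOn
      (hp2.continuousOn.mono (closedBall_subset_ball hρ.2))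
    have hC0 : 0 ≤ C := (norm_nonneg _).trans (hC 0 (mem_closedBall_self hρ.1.le))
    have main : ∀ δ, 0 < δ → δ ≤ ρ → C * δ ≤ 1 → β * ρ - ρ⁻¹ ≤ (C + 1 + β) * δ := by
      intro δ hδ hδρ hCδ
      set A : Set ℂ := {z | ‖z - 0‖ ∈ Ioo δ ρ} with hA
      have hAm : MeasurableSet A :=
        (show Measurable fun z : ℂ => ‖z - 0‖ by fun_prop) measurableSet_Ioo
      have hA1 : ∀ z ∈ A, z ∈ ball (0 : ℂ) 1 := fun z hz => by
        have : ‖z - 0‖ < ρ := hz.2
        rw [mem_ball, dist_eq_norm]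
        exact this.trans hρ.2
      have hA2 : ∀ z ∈ A, 0 < ‖z‖ := fun z hz => by
        have : δ < ‖z - 0‖ := hz.1
        rw [sub_zero] at this
        exact hδ.trans this
      have hder : ∀ z ∈ A, HasDerivAt (fun v => p v / v) ((deriv p z * z - p z * 1) / z ^ 2) z :=
        fun z hz => (hp.hasDerivAt (isOpen_ball.mem_nhds (hA1 z hz))).div (hasDerivAt_id z)
          (norm_pos_iff.mp (hA2 z hz))
      have him := LI_image hAm hder
        (hinj.mono fun z hz => mem_sdiff_singleton.mpr ⟨hA1 z hz, norm_pos_iff.mp (hA2 z hz)⟩) (gk 0)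
      have hup : LI ((fun v => p v / v) '' A) (gk 0) ≤
          ENNReal.ofReal (2 * π * (δ⁻¹ + (C + 1) * δ)) := by
        refine le_trans (LI_mono_set ?_ _) (LI_gk_le 0 b _)
        rintro _ ⟨z, hz, rfl⟩
        have hz0 := hA2 z hz
        have hz1 : δ < ‖z‖ := by simpa using hz.1
        have hz2 : ‖z‖ < ρ := by simpa using hz.2
        have hzne : z ≠ 0 := norm_pos_iff.mp hz0
        have e1 : p z / z - b = z⁻¹ + z * dslope (dslope p 0) 0 z := by
          rw [dslope_eq p z, dslope_eq (dslope p 0) z, dslope_same, hp0]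
          field_simp
          ring
        rw [mem_ball, dist_eq_norm, e1]
        refine (norm_add_le _ _).trans_lt ?_
        rw [norm_inv, norm_mul]
        have h1 : ‖z‖ * ‖dslope (dslope p 0) 0 z‖ ≤ ‖z‖ * C := by
          gcongr
          exact hC z (by simpa using hz2.le)
        have h2 : ‖z‖⁻¹ + ‖z‖ * C ≤ δ⁻¹ + C * δ := by
          have h3 : δ⁻¹ - ‖z‖⁻¹ = (‖z‖ - δ) / (‖z‖ * δ) := by field_simp
          have h4 : C * (‖z‖ - δ) ≤ (‖z‖ - δ) / (‖z‖ * δ) := by
            rw [le_div_iff₀ (by positivity)]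
            have : C * δ * ‖z‖ ≤ 1 := by nlinarith [hρ.2]
            nlinarith
          linarith
        linarith
      have hlow := LI_lower (u := fun z => ‖Q z‖ ^ 2 / ‖z‖ ^ 3) (x := 0) (A := Ioo δ ρ)
        measurableSet_Ioo (fun r hr => hδ.trans hr.1) ?_
        (m := fun r => (1 + β * r ^ 2) / r ^ 3) ?_
      · rw [lint_calc hδ hδρ hβ0] at hlow
        have heq : LI A (fun z => ‖Q z‖ ^ 2 / ‖z‖ ^ 3) =
            LI A (fun z => ‖(deriv p z * z - p z * 1) / z ^ 2‖ ^ 2 * gk 0 (p z / z)) := by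
          refine setLIntegral_congr_fun hAm fun z hz => ?_
          have hz0 := hA2 z hz
          have hpz := norm_pos_iff.mpr (hne z (hA1 z hz))
          simp only [hQ, gk, norm_mul, mul_pow, hexp z (hA1 z hz), sub_zero, norm_div, norm_pow,
            mul_one, mul_comm z]
          congr 1
          field_simp
        have := (hlow.trans_eq (heq.trans him.symm)).trans hup
        rw [ENNReal.ofReal_le_ofReal_iff (by positivity)] at this
        have := le_of_mul_le_mul_left this (by positivity)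
        linarith
      · refine ContinuousOn.div ((hQd.continuousOn.mono hA1).norm.pow 2) (by fun_prop)
          fun z hz => ?_
        have := hA2 z hz
        positivity
      · intro r hr
        have hr0 : 0 < r := hδ.trans hr.1
        have hQ1d : DifferentiableOn ℂ (dslope Q 0) (ball 0 1) := diff_dslope one_pos hQd
        refine ⟨fun v => (((‖Q 0‖ ^ 2 - r ^ 2 * ‖dslope Q 0 0‖ ^ 2 : ℝ) : ℂ) +
          2 * conj (Q 0) * (v * dslope Q 0 v) +
          2 * (r ^ 2 : ℝ) * conj (dslope Q 0 0) * dslope Q 0 v) / (r ^ 3 : ℝ), ?_, ?_, ?_⟩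
        · refine DifferentiableOn.diffContOnCl ?_
          rw [closure_ball _ hr0.ne']
          have := hQ1d.mono (closedBall_subset_ball (hr.2.trans hρ.2))
          fun_prop
        · intro z hz
          rw [sub_zero] at hz
          simp only [Complex.div_ofReal_re]
          rw [dslope_eq Q z, ← hz]
          gcongr
          exact sq_lower _ _ _ _
        · simp only [Complex.div_ofReal_re]
          gcongr
          rw [mul_assoc (2 * ((r ^ 2 : ℝ) : ℂ)), Complex.conj_mul', hQ0, hQ1, hβ]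
          simp only [zero_mul, mul_zero, add_zero, ← Complex.ofReal_pow, Complex.add_re,
            Complex.ofReal_re]
          norm_cast
          linarith
    have ht : Tendsto (fun δ : ℝ => (C + 1 + β) * δ) (𝓝[>] 0) (𝓝 ((C + 1 + β) * 0)) :=
      ((continuous_const.mul continuous_id).tendsto 0).mono_left nhdsWithin_le_nhds
    rw [mul_zero] at ht
    refine ge_of_tendsto ht ?_
    have h1 : ∀ᶠ δ in 𝓝[>] (0 : ℝ), δ ∈ Ioo 0 (min ρ (1 / (C + 1))) :=
      Ioo_mem_nhdsGT (lt_min hρ.1 (by positivity))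
    filter_upwards [h1] with δ hδ
    refine main δ hδ.1 (hδ.2.le.trans (min_le_left _ _)) ?_
    have := hδ.2.le.trans (min_le_right _ _)
    rw [le_div_iff₀ (by positivity)] at this
    nlinarith [hδ.1]
  have ht : Tendsto (fun ρ : ℝ => β * ρ - ρ⁻¹) (𝓝[<] 1) (𝓝 (β * 1 - (1 : ℝ)⁻¹)) :=
    (((continuous_const.mul continuous_id).tendsto 1).sub
      (tendsto_inv₀ one_ne_zero)).mono_left nhdsWithin_le_nhds
  have h2 : β * 1 - (1 : ℝ)⁻¹ ≤ 0 := by
    refine le_of_tendsto ht ?_
    filter_upwards [Ioo_mem_nhdsLT one_pos] with ρ hρ using key ρ hρ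
  rw [hβ] at h2
  nlinarith [norm_nonneg b]

/-- Bieberbach's inequality. -/
theorem bieberbach {F : ℂ → ℂ} (hF : Univ F (ball 0 1)) :
    ‖deriv (deriv F) 0‖ ≤ 4 * ‖deriv F 0‖ := by
  have h01 : (0 : ℂ) ∈ ball (0 : ℂ) 1 := mem_ball_self one_pos
  have hn : ball (0 : ℂ) 1 ∈ 𝓝 (0 : ℂ) := ball_mem_nhds 0 one_pos
  set A := deriv F 0 with hA
  have hA0 : A ≠ 0 := hF.ne 0 h01
  set q := dslope F 0 with hq
  have hqd : DifferentiableOn ℂ q (ball 0 1) := diff_dslope one_pos hF.diff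
  have hq0 : q 0 = A := dslope_same _ _
  have hqne : ∀ v ∈ ball (0 : ℂ) 1, q v ≠ 0 := by
    intro v hv h
    have := dslope_eq F v
    rw [← hq, h, mul_zero, add_zero] at this
    have hv0 := hF.inj hv h01 this
    rw [hv0, hq0] at h
    exact hA0 h
  have h1 := area_aux (p := fun v => A / q v) ((differentiableOn_const A).div hqd hqne)
    (by simp [hq0, hA0]) (fun v hv => div_ne_zero hA0 (hqne v hv)) ?_
  · have h2 : deriv (fun v => A / q v) 0 = -deriv q 0 / A := by
      refine (((hasDerivAt_const (0 : ℂ) A).div (hqd.hasDerivAt hn) (hqne 0 h01)).deriv).trans ?_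
      rw [hq0]
      field_simp
      ring
    have h3 : deriv F =ᶠ[𝓝 0] fun v => q v + v * deriv q v := by
      filter_upwards [hn] with v hv
      have : F = fun v => F 0 + v * q v := funext fun v => dslope_eq F v
      rw [this]
      refine ((((hasDerivAt_id v).mul (hqd.hasDerivAt (isOpen_ball.mem_nhds hv))).const_add
        (F 0)).deriv).trans ?_
      simp
    have h4 : deriv (deriv F) 0 = 2 * deriv q 0 := by
      rw [h3.deriv_eq]
      refine (((hqd.hasDerivAt hn).add ((hasDerivAt_id (0 : ℂ)).mul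
        ((hqd.deriv isOpen_ball).hasDerivAt hn))).deriv).trans ?_
      simp
      ring
    rw [h2, norm_div, norm_neg, div_le_iff₀ (norm_pos_iff.mpr hA0)] at h1
    rw [h4, norm_mul]
    simp only [Complex.norm_ofNat]
    linarith
  · intro v hv w hw h
    have hv0 : v ≠ 0 := hv.2
    have hw0 : w ≠ 0 := hw.2
    have hqv := hqne v hv.1
    have hqw := hqne w hw.1
    refine hF.inj hv.1 hw.1 ?_
    rw [dslope_eq F v, dslope_eq F w, ← hq]
    simp only at h
    field_simp at h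
    linear_combination -h

end Pool.Agent.MP_28f8a1_an
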