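import Pool.Agent.MP_28f8a1_an.Cap

/-! Inverse branches of iterates of `z ^ (e+1) + c`, and the packing of their images. -/

set_option autoImplicit false

namespace Pool.Agent.MP_28f8a1_an

open MeasureTheory Metric Set Real Filter Topology
open scoped ENNReal

/-- The unicritical polynomial of degree `e + 1`. -/
noncomputable def fq (e : ℕ) (c z : ℂ) : ℂ := z ^ (e + 1) + c

/-- The derivative of the `n`-th iterate. -/
noncomputable def Pd (e : ℕ) (c z : ℂ) (n : ℕ) : ℂ := deriv (fq e c)^[n] z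

variable {e : ℕ} {c : ℂ}

theorem fq_deriv (z : ℂ) : HasDerivAt (fq e c) ((e + 1 : ℕ) * z ^ e) z := by
  have := (hasDerivAt_pow (e + 1) z).add_const c
  rwa [Nat.add_sub_cancel] at this

theorem fq_diff : Differentiable ℂ (fq e c) := fun z => (fq_deriv z).differentiableAt

theorem iter_diff (n : ℕ) : Differentiable ℂ (fq e c)^[n] := fq_diff.iterate n

theorem iter_deriv (n : ℕ) (z : ℂ) : HasDerivAt (fq e c)^[n] (Pd e c z n) z :=
  (iter_diff n z).hasDerivAt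

theorem Pd_zero (z : ℂ) : Pd e c z 0 = 1 := by simp [Pd]

theorem Pd_add (z : ℂ) (j k : ℕ) :
    Pd e c z (j + k) = Pd e c ((fq e c)^[k] z) j * Pd e c z k := by
  have h := ((iter_deriv (e := e) (c := c) j _).comp z (iter_deriv (e := e) (c := c) k z)).deriv
  rwa [← Function.iterate_add] at h

theorem Pd_one (z : ℂ) : Pd e c z 1 = (e + 1 : ℕ) * z ^ e := (fq_deriv z).deriv

theorem Pd_succ (z : ℂ) (n : ℕ) :
    Pd e c z (n + 1) = Pd e c (fq e c z) n * ((e + 1 : ℕ) * z ^ e) := by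
  rw [Pd_add, Pd_one]
  rfl

theorem Pd_succ' (z : ℂ) (n : ℕ) :
    Pd e c z (n + 1) = (e + 1 : ℕ) * ((fq e c)^[n] z) ^ e * Pd e c z n := by
  rw [add_comm n 1, Pd_add, Pd_one]

/-- `h` is a holomorphic branch of the inverse of the `k`-th iterate on `S`. -/
structure Br (e : ℕ) (c : ℂ) (k : ℕ) (h : ℂ → ℂ) (S : Set ℂ) : Prop where
  diff : DifferentiableOn ℂ h S
  inv : ∀ z ∈ S, (fq e c)^[k] (h z) = z

theorem Br.mul_deriv {k : ℕ} {h : ℂ → ℂ} {S : Set ℂ} (hb : Br e c k h S) (hS : IsOpen S) {z : ℂ}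
    (hz : z ∈ S) : Pd e c (h z) k * deriv h z = 1 := by
  have h1 := (iter_deriv (e := e) (c := c) k (h z)).comp z (hb.diff.hasDerivAt (hS.mem_nhds hz))
  have h2 : id =ᶠ[𝓝 z] (fq e c)^[k] ∘ h := by
    filter_upwards [hS.mem_nhds hz] with v hv using (hb.inv v hv).symm
  exact (h1.congr_of_eventuallyEq h2).unique (hasDerivAt_id z)

theorem Br.norm_deriv {k : ℕ} {h : ℂ → ℂ} {S : Set ℂ} (hb : Br e c k h S) (hS : IsOpen S) {z : ℂ}
    (hz : z ∈ S) : ‖deriv h z‖ = ‖Pd e c (h z) k‖⁻¹ := by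
  rw [← norm_inv, eq_inv_of_mul_eq_one_right (hb.mul_deriv hS hz)]

theorem Br.univ {k : ℕ} {h : ℂ → ℂ} {S : Set ℂ} (hb : Br e c k h S) (hS : IsOpen S) : Univ h S :=
  ⟨hb.diff, fun u hu v hv h => by rw [← hb.inv u hu, h, hb.inv v hv],
    fun _ hz => right_ne_zero_of_mul_eq_one (hb.mul_deriv hS hz)⟩

theorem Br.iter {k : ℕ} {h : ℂ → ℂ} {S : Set ℂ} (hb : Br e c k h S) {j : ℕ} (hj : j ≤ k) :
    Br e c (k - j) (fun z => (fq e c)^[j] (h z)) S :=
  ⟨(iter_diff j).comp_differentiableOn hb.diff, fun z hz => by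
    rw [← Function.iterate_add_apply, Nat.sub_add_cancel hj, hb.inv z hz]⟩

theorem Br.ne_zero (he : 1 ≤ e) {k : ℕ} {h : ℂ → ℂ} {S : Set ℂ} (hb : Br e c k h S) (hS : IsOpen S)
    (hk : 0 < k) {z : ℂ} (hz : z ∈ S) : h z ≠ 0 := by
  obtain ⟨k, rfl⟩ := Nat.exists_eq_succ_of_ne_zero hk.ne'
  intro h0
  have := hb.mul_deriv hS hz
  rw [Pd_succ, h0, zero_pow (by omega)] at this
  simp at this

theorem Br.unique {k : ℕ} {h h' : ℂ → ℂ} {x : ℂ} {R : ℝ} (hb : Br e c k h (ball x R))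
    (hb' : Br e c k h' (ball x R)) {z : ℂ} (hz : z ∈ ball x R) (hzz : h z = h' z) :
    EqOn h h' (ball x R) := by
  have hn := isOpen_ball.mem_nhds hz
  refine (hb.diff.analyticOnNhd isOpen_ball).eqOn_of_preconnected_of_eventuallyEq
    (hb'.diff.analyticOnNhd isOpen_ball) (convex_ball x R).isPreconnected hz ?_
  have h1 : HasStrictDerivAt (fq e c)^[k] (Pd e c (h z) k) (h z) :=
    ((iter_diff k).analyticAt (h z)).hasStrictDerivAt
  have h0 := left_ne_zero_of_mul_eq_one (hb.mul_deriv isOpen_ball hz)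
  obtain ⟨ι, h2⟩ : ∃ ι : ℂ → ℂ, ∀ᶠ v in 𝓝 (h z), ι ((fq e c)^[k] v) = v :=
    ⟨_, (h1.hasStrictFDerivAt_equiv h0).eventually_left_inverse⟩
  have h3 := (hb.diff.continuousOn.continuousAt hn).eventually h2
  rw [hzz] at h2
  have h4 := (hb'.diff.continuousOn.continuousAt hn).eventually h2
  filter_upwards [h3, h4, hn] with v h5 h6 hv
  rw [hb.inv v hv] at h5
  rw [hb'.inv v hv] at h6
  rw [← h5, h6]

theorem Br.deriv_le (he : 1 ≤ e) {k : ℕ} {h : ℂ → ℂ} {t : ℝ} (ht : 0 < t)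
    (hb : Br e c k h (ball 0 (t / 32))) (hk : 0 < k) : ‖deriv h 0‖ * t ≤ 128 * ‖h 0‖ := by
  have := koebe_omit (by positivity) (hb.univ isOpen_ball) (w := 0) (by
    rintro ⟨z, hz, h0⟩
    exact hb.ne_zero he isOpen_ball hk hz h0)
  rw [sub_zero] at this
  linarith

theorem Br.val_le {k : ℕ} {h : ℂ → ℂ} {t : ℝ} (ht : 0 < t)
    (hb : Br e c k h (ball 0 (t / 32))) {u : ℂ} (hu : ‖u‖ ≤ t / 2048) :
    ‖h u - h 0‖ ≤ 2 * ‖deriv h 0‖ * ‖u‖ := by
  simpa using lin_val_le (by positivity) (hb.univ isOpen_ball) (z := u) (by rw [sub_zero]; linarith)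

theorem Br.near (he : 1 ≤ e) {k : ℕ} {h : ℂ → ℂ} {t : ℝ} (ht : 0 < t)
    (hb : Br e c k h (ball 0 (t / 32))) (hk : 0 < k) {u : ℂ} (hu : ‖u‖ ≤ t / 2048) :
    ‖h u - h 0‖ ≤ ‖h 0‖ / 8 := by
  have h1 := hb.val_le ht hu
  have h2 := hb.deriv_le he ht hk
  have h3 : ‖deriv h 0‖ * ‖u‖ ≤ ‖deriv h 0‖ * (t / 2048) := by gcongr
  linarith

/-- Centres of pull-backs of the disc of radius `t / 32` along orbits avoiding a small disc. -/
def Idx (e : ℕ) (c : ℂ) (t θ : ℝ) (m : ℕ) (x : ℂ) : Prop :=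
  ∃ h, Br e c m h (ball 0 (t / 32)) ∧ h 0 = x ∧ ∀ j < m, θ * t / 2 ≤ ‖(fq e c)^[j] x‖

/-- The scale of a pull-back. -/
noncomputable def scl (e : ℕ) (c : ℂ) (t : ℝ) (m : ℕ) (x : ℂ) : ℝ := t * ‖Pd e c x m‖⁻¹

theorem Br.scl_eq {m : ℕ} {h : ℂ → ℂ} {t : ℝ} (ht : 0 < t) (hb : Br e c m h (ball 0 (t / 32))) :
    scl e c t m (h 0) = t * ‖deriv h 0‖ := by
  rw [scl, hb.norm_deriv isOpen_ball (mem_ball_self (by positivity))]

theorem Br.small {m : ℕ} {h : ℂ → ℂ} {t θ : ℝ} (ht : 0 < t) (hθ : 0 < θ) (hθ1 : θ ≤ 1 / 512)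
    (hb : Br e c m h (ball 0 (t / 32))) {y : ℂ} (hy : y ∈ ball (h 0) (θ * scl e c t m (h 0) / 16)) :
    ∃ u, ‖u‖ < θ * t / 4 ∧ h u = y := by
  have := koebe (R := θ * t / 4) (by positivity)
    ((hb.univ isOpen_ball).mono (ball_subset_ball (by nlinarith)))
  rw [hb.scl_eq ht, show θ * (t * ‖deriv h 0‖) / 16 = ‖deriv h 0‖ * (θ * t / 4) / 4 by ring] at hy
  obtain ⟨u, hu, rfl⟩ := this hy
  exact ⟨u, mem_ball_zero_iff.mp hu, rfl⟩

theorem small_disj (he : 1 ≤ e) {t θ : ℝ} (ht : 0 < t) (hθ : 0 < θ) (hθ1 : θ ≤ 1 / 512)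
    {m m' : ℕ} {x x' y : ℂ} (hx : Idx e c t θ m x) (hx' : Idx e c t θ m' x')
    (hy : y ∈ ball x (θ * scl e c t m x / 16)) (hy' : y ∈ ball x' (θ * scl e c t m' x' / 16)) :
    m = m' ∧ x = x' := by
  wlog hm : m ≤ m' generalizing m m' x x'
  · have := this hx' hx hy' hy (by omega)
    exact ⟨this.1.symm, this.2.symm⟩
  obtain ⟨h, hb, rfl, -⟩ := hx
  obtain ⟨h', hb', rfl, hfar⟩ := hx'
  obtain ⟨u, hu, huy⟩ := hb.small ht hθ hθ1 hy
  obtain ⟨u', hu', huy'⟩ := hb'.small ht hθ hθ1 hy'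
  have hub : u ∈ ball (0 : ℂ) (t / 32) := mem_ball_zero_iff.mpr (by nlinarith)
  have hub' : u' ∈ ball (0 : ℂ) (t / 32) := mem_ball_zero_iff.mpr (by nlinarith)
  rcases hm.eq_or_lt with rfl | hlt
  · have h1 : u = u' := by rw [← hb.inv u hub, huy, ← huy', hb'.inv u' hub']
    subst h1
    exact ⟨rfl, hb.unique hb' hub (huy.trans huy'.symm) (mem_ball_self (by positivity))⟩
  · exfalso
    have h1 := (hb'.iter hm).near he ht (by omega) (u := u') (by nlinarith)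
    simp only [huy'] at h1
    rw [← huy, hb.inv u hub] at h1
    have h2 := hfar m hlt
    have h3 := norm_sub_norm_le ((fq e c)^[m] (h' 0)) u
    rw [norm_sub_rev] at h3
    nlinarith [mul_pos hθ ht]

theorem LI_biUnion_le {ι : Type*} (s : Finset ι) (T : ι → Set ℂ) (u : ℂ → ℝ) :
    LI (⋃ i ∈ s, T i) u ≤ ∑ i ∈ s, LI (T i) u := by
  classical
  induction s using Finset.induction_on with
  | empty => simp [LI]
  | insert a s ha ih =>
    rw [Finset.set_biUnion_insert, Finset.sum_insert ha]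
    exact (LI_union_le _ _ _).trans (add_le_add le_rfl ih)

theorem sum_LI_le {ι : Type*} (s : Finset ι) {T : ι → Set ℂ}
    (hd : (s : Set ι).PairwiseDisjoint T) (hm : ∀ i ∈ s, MeasurableSet (T i)) {Ω : Set ℂ}
    (hsub : ∀ i ∈ s, T i ⊆ Ω) (u : ℂ → ℝ) : ∑ i ∈ s, LI (T i) u ≤ LI Ω u := by
  unfold LI
  rw [← lintegral_biUnion_finset hd hm]
  exact lintegral_mono_set (iUnion₂_subset hsub)

/-- Packing estimate along a single orbit. -/
theorem packing (he : 1 ≤ e) {t θ : ℝ} (ht : 0 < t) (hθ : 0 < θ) (hθ1 : θ ≤ 1 / 512) {m : ℕ}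
    {h : ℂ → ℂ} (hb : Br e c m h (ball 0 (t / 32))) {y : ℂ} (hy : ‖y‖ ≤ t / 2048)
    (hfar : ∀ j < m, θ * t ≤ ‖(fq e c)^[j] (h y)‖) :
    ∑ j ∈ Finset.range m, (θ ^ 2 * t ^ 2 * ‖Pd e c ((fq e c)^[j] (h y)) (m - j)‖⁻¹ /
      ‖(fq e c)^[j] (h y)‖ ^ 2) ^ 2 ≤ 32768 := by
  have hθt : 0 < θ * t := mul_pos hθ ht
  set x : ℕ → ℂ := fun j => (fq e c)^[j] (h 0) with hx
  set σ : ℕ → ℝ := fun j => ‖(fq e c)^[j] (h y)‖ with hσ
  set s : ℕ → ℝ := fun j => scl e c t (m - j) (x j) with hs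
  have hnear : ∀ j < m, 7 / 8 * ‖x j‖ ≤ σ j ∧ σ j ≤ 9 / 8 * ‖x j‖ := by
    intro j hj
    have h1 := (hb.iter hj.le).near he ht (by omega) hy
    have h2 := abs_norm_sub_norm_le ((fq e c)^[j] (h y)) ((fq e c)^[j] (h 0))
    have h3 := abs_le.mp (h2.trans h1)
    simp only [hx, hσ]
    constructor <;> linarith [h3.1, h3.2]
  have hidx : ∀ j < m, Idx e c t θ (m - j) (x j) := by
    intro j hj
    refine ⟨_, hb.iter hj.le, rfl, fun i hi => ?_⟩
    have h1 := hnear (i + j) (by omega)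
    have h2 := hfar (i + j) (by omega)
    simp only [hx, hσ, Function.iterate_add_apply] at h1 h2 ⊢
    linarith [h1.2]
  have hs1 : ∀ j < m, s j ≤ 128 * ‖x j‖ ∧
      t * ‖Pd e c ((fq e c)^[j] (h y)) (m - j)‖⁻¹ ≤ 2 * s j := by
    intro j hj
    have hb' := hb.iter hj.le
    have h1 := hb'.scl_eq ht
    have h2 := hb'.deriv_le he ht (by omega)
    have h3 := lin_deriv (by positivity) (hb'.univ isOpen_ball) (z := y) (η := 1) (by norm_num)
      (by rw [sub_zero]; linarith)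
    have h4 := hb'.norm_deriv isOpen_ball (z := y) (mem_ball_zero_iff.mpr (by linarith))
    have h5 := norm_sub_norm_le (deriv (fun z => (fq e c)^[j] (h z)) y)
      (deriv (fun z => (fq e c)^[j] (h z)) 0)
    simp only [hs, hx]
    rw [h1, ← h4]
    constructor
    · linarith
    · nlinarith
  have hs0 : ∀ j, 0 ≤ s j := fun j => by simp only [hs, scl]; positivity
  have hin : ∀ j < m, ∀ v ∈ ball (x j) (θ * s j / 16), θ * t / 2 ≤ ‖v‖ ∧ ‖v‖ ≤ 2 * σ j := by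
    intro j hj v hv
    rw [mem_ball, dist_eq_norm] at hv
    have h1 := abs_le.mp (abs_norm_sub_norm_le v (x j))
    have h2 := hnear j hj
    have h3 := (hs1 j hj).1
    have h4 : θ * t ≤ σ j := hfar j hj
    have h5 : θ * s j ≤ 1 / 512 * (128 * ‖x j‖) := by
      have := hs0 j
      gcongr
    constructor <;> linarith [h1.1, h1.2, h2.1, h2.2]
  have key := (sum_LI_le (Finset.range m) (T := fun j => ball (x j) (θ * s j / 16))
    (Ω := {z | θ * t / 2 ≤ ‖z - 0‖}) ?_ (fun _ _ => measurableSet_ball) ?_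
    (fun z => (‖z - 0‖ ^ 3)⁻¹)).trans (LI_cube 0 (by positivity))
  · have h1 : ∀ j ∈ Finset.range m, ENNReal.ofReal (((2 * σ j) ^ 3)⁻¹ * (π * (θ * s j / 16) ^ 2)) ≤
        LI (ball (x j) (θ * s j / 16)) (fun z => (‖z - 0‖ ^ 3)⁻¹) := by
      intro j hj
      have hj' := Finset.mem_range.mp hj
      have := hs0 j
      rw [← LI_ball_const (x j) (by positivity) (by positivity)]
      refine LI_mono measurableSet_ball fun v hv => ?_
      have h2 := hin j hj' v hv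
      have : 0 < ‖v‖ := by linarith [h2.1]
      rw [sub_zero]
      exact inv_anti₀ (by positivity) (by gcongr; exact h2.2)
    have h2 := (Finset.sum_le_sum h1).trans key
    rw [← ENNReal.ofReal_sum_of_nonneg (fun j _ => by positivity),
      ENNReal.ofReal_le_ofReal_iff (by positivity)] at h2
    have h3 : 32768 = 8192 * (θ * t) / π * (2 * π / (θ * t / 2)) := by
      field_simp
      norm_num
    rw [h3]
    refine le_trans ?_ (mul_le_mul_of_nonneg_left h2 (by positivity))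
    rw [Finset.mul_sum]
    refine Finset.sum_le_sum fun j hj => ?_
    have hj' := Finset.mem_range.mp hj
    have h4 := (hs1 j hj').2
    have h5 : θ * t ≤ σ j := hfar j hj'
    have h6 : 0 < σ j := hθt.trans_le h5
    set l := ‖Pd e c ((fq e c)^[j] (h y)) (m - j)‖⁻¹
    have hl : 0 ≤ l := by positivity
    change (θ ^ 2 * t ^ 2 * l / σ j ^ 2) ^ 2 ≤ _
    have h7 : 8192 * (θ * t) / π * (((2 * σ j) ^ 3)⁻¹ * (π * (θ * s j / 16) ^ 2)) =
        (θ * t) * θ ^ 2 * (2 * s j) ^ 2 / σ j ^ 3 := by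
      field_simp
      ring
    have h8 : (θ ^ 2 * t ^ 2 * l / σ j ^ 2) ^ 2 =
        (θ * t) * θ ^ 2 * (t * l) ^ 2 / σ j ^ 3 * (θ * t / σ j) := by
      field_simp
    rw [h7, h8]
    have h9 : θ * t / σ j ≤ 1 := (div_le_one h6).mpr h5
    calc _ ≤ (θ * t) * θ ^ 2 * (2 * s j) ^ 2 / σ j ^ 3 * 1 := by gcongr
      _ = _ := mul_one _
  · intro i hi j hj hij
    have hi' := Finset.mem_range.mp hi
    have hj' := Finset.mem_range.mp hj
    refine disjoint_left.mpr fun v hv hv' => hij ?_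
    have := (small_disj he ht hθ hθ1 (hidx i hi') (hidx j hj') hv hv').1
    omega
  · intro j hj v hv
    simpa using (hin j (Finset.mem_range.mp hj) v hv).1

end Pool.Agent.MP_28f8a1_an
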