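import Pool.Agent.MP_28f8a1_an.Dist

/-! A conformal map of the unit disc into itself that removes a small cap near the boundary. -/

set_option autoImplicit false

namespace Pool.Agent.MP_28f8a1_an

open Metric Set Real Filter Topology
open scoped ComplexConjugate

/-- The Cayley involution exchanging the disc and the right half-plane. -/
noncomputable def cay (u : ℂ) : ℂ := (1 - u) / (1 + u)

theorem cay_deriv {u : ℂ} (hu : 1 + u ≠ 0) : HasDerivAt cay (-2 / (1 + u) ^ 2) u := by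
  refine (((hasDerivAt_id u).const_sub 1).div ((hasDerivAt_id u).const_add 1) hu).congr_deriv ?_
  simp only [id]
  congr 1
  ring

theorem cay_cay {u : ℂ} (hu : 1 + u ≠ 0) : cay (cay u) = u := by
  unfold cay
  have : 1 + (1 - u) / (1 + u) = 2 / (1 + u) := by field_simp; ring
  rw [this]
  field_simp
  ring

theorem cay_univ {S : Set ℂ} (hS : ∀ u ∈ S, 1 + u ≠ 0) : Univ cay S :=
  Univ.of_hasDerivAt (fun u hu => cay_deriv (hS u hu))
    (fun u hu v hv h => by rw [← cay_cay (hS u hu), h, cay_cay (hS v hv)])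
    (fun u hu => div_ne_zero (by norm_num) (pow_ne_zero _ (hS u hu)))

theorem ball_ne {u : ℂ} (hu : ‖u‖ < 1) : 1 + u ≠ 0 := by
  intro h
  have : u = -1 := by linear_combination h
  simp [this] at hu

theorem hp_ne {u : ℂ} (hu : 0 < u.re) : 1 + u ≠ 0 := by
  intro h
  have := congrArg Complex.re h
  simp at this
  linarith

theorem cay_re {u : ℂ} (hu : ‖u‖ < 1) : 0 < (cay u).re := by
  have h1 : 0 < Complex.normSq (1 + u) := Complex.normSq_pos.mpr (ball_ne hu)
  have h2 : Complex.normSq u < 1 := by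
    rw [Complex.normSq_eq_norm_sq]
    nlinarith [norm_nonneg u]
  rw [cay, Complex.div_re, ← add_div]
  refine div_pos ?_ h1
  rw [Complex.normSq_apply] at h2
  simp
  nlinarith

theorem cay_lt {u : ℂ} (hu : 0 < u.re) : ‖cay u‖ < 1 := by
  rw [cay, norm_div, div_lt_one (norm_pos_iff.mpr (hp_ne hu)),
    ← pow_lt_pow_iff_left₀ (norm_nonneg _) (norm_nonneg _) two_ne_zero]
  simp only [← Complex.normSq_eq_norm_sq, Complex.normSq_apply]
  simp
  nlinarith

/-- The square root used in the inverse Joukowski map. -/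
noncomputable def jroot (a : ℝ) (u : ℂ) : ℂ := Complex.exp (Complex.log (u ^ 2 + 4 * a ^ 2) / 2)

theorem jslit {a : ℝ} {u : ℂ} (hu : 0 < u.re) : u ^ 2 + 4 * a ^ 2 ∈ Complex.slitPlane := by
  rw [Complex.mem_slitPlane_iff]
  by_cases h : u.im = 0
  · left
    simp [pow_two, h]
    nlinarith [mul_pos hu hu, mul_self_nonneg a]
  · right
    simp [pow_two]
    intro h1
    have : u.re * u.im = 0 := by linarith
    exact h ((mul_eq_zero.mp this).resolve_left hu.ne')

theorem jroot_sq {a : ℝ} {u : ℂ} (hu : 0 < u.re) : jroot a u ^ 2 = u ^ 2 + 4 * a ^ 2 := by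
  rw [jroot, ← Complex.exp_nat_mul, Nat.cast_ofNat, mul_div_cancel₀ _ two_ne_zero,
    Complex.exp_log (Complex.slitPlane_ne_zero (jslit hu))]

theorem jroot_re {a : ℝ} {u : ℂ} (hu : 0 < u.re) : 0 < (jroot a u).re := by
  rw [jroot, Complex.exp_re]
  refine mul_pos (Real.exp_pos _) (Real.cos_pos_of_mem_Ioo ?_)
  have h1 := Complex.neg_pi_lt_arg (u ^ 2 + 4 * a ^ 2)
  have h2 := Complex.arg_le_pi (u ^ 2 + 4 * a ^ 2)
  have h3 := (Complex.mem_slitPlane_iff_arg.mp (jslit (a := a) hu)).1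
  have h4 := lt_of_le_of_ne h2 h3
  simp only [Complex.div_ofNat_im, Complex.log_im, mem_Ioo]
  constructor <;> linarith

/-- The inverse Joukowski map. -/
noncomputable def jinv (a : ℝ) (u : ℂ) : ℂ := (u + jroot a u) / 2

theorem jinv_re {a : ℝ} {u : ℂ} (hu : 0 < u.re) : 0 < (jinv a u).re := by
  have := jroot_re (a := a) hu
  simp only [jinv, Complex.div_ofNat_re, Complex.add_re]
  linarith

theorem jinv_ne {a : ℝ} {u : ℂ} (hu : 0 < u.re) : jinv a u ≠ 0 := fun h => by
  simpa [h] using jinv_re (a := a) hu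

theorem jinv_eq {a : ℝ} {u : ℂ} (hu : 0 < u.re) : u = jinv a u - a ^ 2 / jinv a u := by
  have h1 := jinv_ne (a := a) hu
  have h2 := jroot_sq (a := a) hu
  field_simp
  unfold jinv
  linear_combination (-1 / 4 : ℂ) * h2

theorem jinv_deriv {a : ℝ} {u : ℂ} (hu : 0 < u.re) :
    HasDerivAt (jinv a) (jinv a u / jroot a u) u := by
  have h1 := ((((hasDerivAt_pow 2 u).add_const (4 * (a : ℂ) ^ 2)).clog (jslit hu)).div_const 2).cexp
  have h2 := ((hasDerivAt_id u).add h1).div_const 2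
  refine h2.congr_deriv ?_
  have h3 : jroot a u ≠ 0 := Complex.exp_ne_zero _
  rw [← jroot, ← jroot_sq hu, jinv]
  field_simp
  push_cast
  ring

theorem jinv_univ (a : ℝ) : Univ (jinv a) {u | 0 < u.re} :=
  Univ.of_hasDerivAt (fun _ hu => jinv_deriv hu)
    (fun u hu v hv h => by rw [jinv_eq (a := a) hu, jinv_eq (a := a) hv, h])
    (fun _ hu => div_ne_zero (jinv_ne hu) (Complex.exp_ne_zero _))

theorem jinv_gt {a : ℝ} {u : ℂ} (hu : 0 < u.re) : a < ‖jinv a u‖ := by
  have h1 := congrArg Complex.re (jinv_eq (a := a) hu)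
  have h2 := jinv_re (a := a) hu
  have h3 : 0 < Complex.normSq (jinv a u) := Complex.normSq_pos.mpr (jinv_ne hu)
  rw [Complex.sub_re, ← Complex.ofReal_pow, div_eq_mul_inv, Complex.re_ofReal_mul,
    Complex.inv_re] at h1
  have h4 : a ^ 2 * ((jinv a u).re / Complex.normSq (jinv a u)) < (jinv a u).re := by linarith
  rw [← mul_div_assoc, div_lt_iff₀ h3, mul_comm] at h4
  have h5 := lt_of_mul_lt_mul_left h4 h2.le
  rw [Complex.normSq_eq_norm_sq] at h5
  exact lt_of_pow_lt_pow_left₀ 2 (norm_nonneg _) h5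

theorem jroot_base {a : ℝ} (ha : a ^ 2 < 1) :
    jroot a ((1 - a ^ 2 : ℝ) : ℂ) = ((1 + a ^ 2 : ℝ) : ℂ) := by
  have hu : 0 < (((1 - a ^ 2 : ℝ) : ℂ)).re := by
    rw [Complex.ofReal_re]
    linarith
  have h1 := jroot_sq (a := a) hu
  have h2 := jroot_re (a := a) hu
  have h3 : (jroot a ((1 - a ^ 2 : ℝ) : ℂ) - ((1 + a ^ 2 : ℝ) : ℂ)) *
      (jroot a ((1 - a ^ 2 : ℝ) : ℂ) + ((1 + a ^ 2 : ℝ) : ℂ)) = 0 := by
    push_cast at h1 ⊢
    linear_combination h1
  rcases mul_eq_zero.mp h3 with h | h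
  · exact sub_eq_zero.mp h
  · have := congrArg Complex.re h
    rw [Complex.add_re, Complex.ofReal_re, Complex.zero_re] at this
    nlinarith

theorem mul_univ {e : ℂ} (he : e ≠ 0) (S : Set ℂ) : Univ (fun z => e * z) S :=
  Univ.of_hasDerivAt (F' := fun _ => e)
    (fun z _ => by simpa using (hasDerivAt_id z).const_mul e)
    (fun _ _ _ _ h => mul_left_cancel₀ he h) (fun _ _ => he)

/-- Removing a cap costs only a second order amount of conformal radius. -/
theorem exists_cap {ζ : ℂ} (h1 : 1 / 2 ≤ ‖ζ‖) (h2 : ‖ζ‖ < 1) :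
    ∃ φ : ℂ → ℂ, Univ φ (ball 0 1) ∧ MapsTo φ (ball 0 1) (ball 0 1) ∧ φ 0 = 0 ∧
      1 - 5 * (1 - ‖ζ‖) ^ 2 ≤ ‖deriv φ 0‖ ∧
      ∀ u ∈ ball (0 : ℂ) 1, φ u ∉ ball ζ ((1 - ‖ζ‖) / 2) := by
  obtain ⟨e, he, hζ⟩ := exists_unit ζ
  set ε := 1 - ‖ζ‖ with hε
  have hε0 : 0 < ε := by linarith
  have hε1 : ε ≤ 1 / 2 := by linarith
  set a : ℝ := 3 / 2 * ε with ha
  have ha1 : a ^ 2 < 1 := by nlinarith
  have hee : conj e * e = 1 := by rw [conj_mul_self', he]; simp
  have he0 : e ≠ 0 := by rintro rfl; simp at he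
  have hce0 : conj e ≠ 0 := by simpa using he0
  set l : ℂ := ((1 - a ^ 2 : ℝ) : ℂ) with hl
  have hl0 : l ≠ 0 := Complex.ofReal_ne_zero.mpr (by linarith)
  have hH : IsOpen {u : ℂ | 0 < u.re} := isOpen_lt continuous_const Complex.continuous_re
  have m1 : ∀ z ∈ ball (0 : ℂ) 1, ‖conj e * z‖ < 1 := fun z hz => by
    rw [norm_mul, Complex.norm_conj, he, one_mul]
    exact mem_ball_zero_iff.mp hz
  have m2 : ∀ z ∈ ball (0 : ℂ) 1, 0 < (l * cay (conj e * z)).re := fun z hz => by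
    rw [hl, Complex.re_ofReal_mul]
    exact mul_pos (by linarith) (cay_re (m1 z hz))
  have u1 := (cay_univ (S := ball 0 1) fun u hu => ball_ne (mem_ball_zero_iff.mp hu)).comp
    (mul_univ hce0 (ball 0 1)) isOpen_ball isOpen_ball
    (fun z hz => mem_ball_zero_iff.mpr (m1 z hz))
  have u2 := (mul_univ hl0 univ).comp u1 isOpen_univ isOpen_ball (mapsTo_univ _ _)
  have u3 := (jinv_univ a).comp u2 hH isOpen_ball m2
  have u4 := (cay_univ (S := {u : ℂ | 0 < u.re}) fun u hu => hp_ne hu).comp u3 hH isOpen_ball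
    (fun z hz => jinv_re (m2 z hz))
  have u5 := (mul_univ he0 univ).comp u4 isOpen_univ isOpen_ball (mapsTo_univ _ _)
  have hc0 : cay (conj e * 0) = 1 := by simp [cay]
  have hj : jinv a (l * cay (conj e * 0)) = 1 := by
    rw [hc0, mul_one, jinv, hl, jroot_base ha1]
    push_cast
    ring
  refine ⟨_, u5, fun z hz => ?_, ?_, ?_, fun u hu hmem => ?_⟩
  · rw [mem_ball_zero_iff, norm_mul, he, one_mul]
    exact cay_lt (jinv_re (m2 z hz))
  · simp only [hj]
    simp [cay]
  · have d1 : HasDerivAt (fun z : ℂ => conj e * z) (conj e) 0 := by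
      simpa using (hasDerivAt_id (0 : ℂ)).const_mul (conj e)
    have d2 := ((cay_deriv (u := conj e * 0) (by simp)).comp 0 d1).const_mul l
    have d3 := (jinv_deriv (a := a) (m2 0 (mem_ball_self one_pos))).comp 0 d2
    have d4 := ((cay_deriv (u := jinv a (l * cay (conj e * 0))) (by rw [hj]; norm_num)).comp 0
      d3).const_mul e
    have d5 : deriv (fun z => e * cay (jinv a (l * cay (conj e * z)))) 0 =
        (((1 - a ^ 2) / (1 + a ^ 2) : ℝ) : ℂ) := by
      refine d4.deriv.trans ?_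
      rw [hj, hc0, mul_one, hl, jroot_base ha1]
      have : ((1 + a ^ 2 : ℝ) : ℂ) ≠ 0 := Complex.ofReal_ne_zero.mpr (by positivity)
      rw [Complex.ofReal_div]
      field_simp
      linear_combination (4 * ((1 - a ^ 2 : ℝ) : ℂ)) * hee
    rw [d5, Complex.norm_real, Real.norm_eq_abs, abs_of_pos (div_pos (by linarith) (by positivity)),
      le_div_iff₀ (by positivity), ha]
    nlinarith [sq_nonneg (ε ^ 2), sq_nonneg ε]
  · set w := jinv a (l * cay (conj e * u)) with hw
    have hw1 : a < ‖w‖ := jinv_gt (m2 u hu)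
    have hw2 : cay (cay w) = w := cay_cay (hp_ne (jinv_re (m2 u hu)))
    have h3 : ‖cay w - (1 - ε : ℝ)‖ < ε / 2 := by
      rw [mem_ball, dist_eq_norm, hζ] at hmem
      have : e * cay w - ((‖ζ‖ : ℝ) : ℂ) * e = e * (cay w - (1 - ε : ℝ)) := by
        rw [hε]
        push_cast
        ring
      rwa [this, norm_mul, he, one_mul] at hmem
    have h4 : ‖1 - cay w‖ < a := by
      have h5 := norm_sub_le ((ε : ℝ) : ℂ) (cay w - (1 - ε : ℝ))
      rw [Complex.norm_real, Real.norm_eq_abs, abs_of_pos hε0,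
        show ((ε : ℝ) : ℂ) - (cay w - (1 - ε : ℝ)) = 1 - cay w by push_cast; ring] at h5
      linarith
    have h5 : 1 ≤ ‖1 + cay w‖ := by
      have h6 := norm_add_le (1 + cay w) (1 - cay w)
      rw [show 1 + cay w + (1 - cay w) = 2 by ring, Complex.norm_ofNat] at h6
      linarith
    rw [← hw2, cay, norm_div, lt_div_iff₀ (by linarith)] at hw1
    nlinarith

end Pool.Agent.MP_28f8a1_an
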