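import Pool.Agent.MP_28f8a1_an.Koebe

/-! Scaled distortion estimates, the two-point estimate and inverses of univalent maps. -/

set_option autoImplicit false

namespace Pool.Agent.MP_28f8a1_an

open Metric Set Real Filter Topology
open scoped ComplexConjugate

theorem scale_maps (x : ℂ) {R : ℝ} (hR : 0 < R) :
    MapsTo (fun u : ℂ => x + R * u) (ball 0 1) (ball x R) := fun u hu => by
  rw [mem_ball_zero_iff] at hu
  rw [mem_ball, dist_eq_norm, add_sub_cancel_left, norm_mul, Complex.norm_real, Real.norm_eq_abs,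
    abs_of_pos hR]
  nlinarith

theorem scale_deriv (x : ℂ) (R : ℝ) (u : ℂ) : HasDerivAt (fun u : ℂ => x + R * u) (R : ℂ) u := by
  simpa using ((hasDerivAt_id u).const_mul (R : ℂ)).const_add x

theorem Univ.scale {h : ℂ → ℂ} {x : ℂ} {R : ℝ} (hR : 0 < R) (hh : Univ h (ball x R)) :
    Univ (fun u => h (x + R * u)) (ball 0 1) := by
  have hR' : (R : ℂ) ≠ 0 := Complex.ofReal_ne_zero.mpr hR.ne'
  refine hh.comp (Univ.of_hasDerivAt (fun u _ => scale_deriv x R u) ?_ fun _ _ => hR')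
    isOpen_ball isOpen_ball (scale_maps x hR)
  intro u _ v _ h
  exact mul_left_cancel₀ hR' (add_left_cancel h)

theorem Univ.scale_deriv {h : ℂ → ℂ} {x : ℂ} {R : ℝ} (hR : 0 < R) (hh : Univ h (ball x R))
    {u : ℂ} (hu : u ∈ ball (0 : ℂ) 1) :
    deriv (fun u => h (x + R * u)) u = deriv h (x + R * u) * R :=
  ((hh.hasDerivAt isOpen_ball (scale_maps x hR hu)).comp u
    (Pool.Agent.MP_28f8a1_an.scale_deriv x R u)).deriv

/-- Koebe's one-quarter theorem, omitted value form. -/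
theorem koebe_omit {h : ℂ → ℂ} {x : ℂ} {R : ℝ} (hR : 0 < R) (hh : Univ h (ball x R)) {w : ℂ}
    (hw : w ∉ h '' ball x R) : ‖deriv h x‖ * R ≤ 4 * ‖h x - w‖ := by
  have h1 := koebe_unit (hh.scale hR) (w := w) (by
    rintro ⟨u, hu, rfl⟩
    exact hw ⟨_, scale_maps x hR hu, rfl⟩)
  rw [hh.scale_deriv hR (mem_ball_self one_pos)] at h1
  simpa [abs_of_pos hR] using h1

/-- Koebe's one-quarter theorem, covering form. -/
theorem koebe {h : ℂ → ℂ} {x : ℂ} {R : ℝ} (hR : 0 < R) (hh : Univ h (ball x R)) :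
    ball (h x) (‖deriv h x‖ * R / 4) ⊆ h '' ball x R := by
  intro w hw
  by_contra hn
  have := koebe_omit hR hh hn
  rw [mem_ball, dist_comm, dist_eq_norm] at hw
  linarith

theorem lin_deriv_unit {F : ℂ → ℂ} (hF : Univ F (ball 0 1)) {u : ℂ} (hu : ‖u‖ < 1 / 2) :
    ‖deriv F u - deriv F 0‖ ≤ 34 * ‖deriv F 0‖ * ‖u‖ := by
  have h1 := Complex.dist_le_div_mul_dist_of_mapsTo_ball (f := deriv F) (c := 0) (R₁ := 1 / 2)
    (R₂ := 17 * ‖deriv F 0‖)
    ((hF.diff.deriv isOpen_ball).mono (ball_subset_ball (by norm_num))) ?_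
    (mem_ball_zero_iff.mpr hu)
  · rw [dist_eq_norm, dist_zero_right] at h1
    linarith
  · intro v hv
    rw [mem_ball_zero_iff] at hv
    rw [mem_closedBall, dist_eq_norm]
    have h2 := distortion hF (z := v) (by linarith)
    have h3 : 2 * ‖deriv F 0‖ / (1 - ‖v‖) ^ 3 ≤ 2 * ‖deriv F 0‖ / (1 / 2) ^ 3 := by
      gcongr
      linarith
    have h4 : 2 * ‖deriv F 0‖ / (1 / 2) ^ 3 = 16 * ‖deriv F 0‖ := by ring
    linarith [norm_sub_le (deriv F v) (deriv F 0)]

/-- The derivative of a univalent map is almost constant near the centre. -/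
theorem lin_deriv {h : ℂ → ℂ} {x : ℂ} {R : ℝ} (hR : 0 < R) (hh : Univ h (ball x R)) {z : ℂ}
    {η : ℝ} (hη : η < 17) (hz : 34 * ‖z - x‖ ≤ η * R) :
    ‖deriv h z - deriv h x‖ ≤ η * ‖deriv h x‖ := by
  have hR' : (R : ℂ) ≠ 0 := Complex.ofReal_ne_zero.mpr hR.ne'
  have hu : ‖(z - x) / R‖ = ‖z - x‖ / R := by simp [abs_of_pos hR]
  have hu1 : ‖(z - x) / R‖ < 1 / 2 := by
    rw [hu, div_lt_iff₀ hR]
    nlinarith
  have h1 := lin_deriv_unit (hh.scale hR) hu1
  rw [hh.scale_deriv hR (mem_ball_self one_pos),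
    hh.scale_deriv hR (mem_ball_zero_iff.mpr (by linarith)), mul_zero, add_zero,
    show x + R * ((z - x) / R) = z by field_simp; ring, ← sub_mul, norm_mul, norm_mul, hu,
    Complex.norm_real, Real.norm_eq_abs, abs_of_pos hR] at h1
  refine le_of_mul_le_mul_right (h1.trans ?_) hR
  have : 34 * (‖deriv h x‖ * R) * (‖z - x‖ / R) = ‖deriv h x‖ * (34 * ‖z - x‖) := by field_simp
  rw [this]
  nlinarith [norm_nonneg (deriv h x)]

/-- A univalent map is almost affine near the centre. -/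
theorem lin_val {h : ℂ → ℂ} {x : ℂ} {R : ℝ} (hR : 0 < R) (hh : Univ h (ball x R)) {z : ℂ}
    {η : ℝ} (hη : η < 17) (hz : 34 * ‖z - x‖ ≤ η * R) :
    ‖h z - h x - deriv h x * (z - x)‖ ≤ η * ‖deriv h x‖ * ‖z - x‖ := by
  have hsub : closedBall x ‖z - x‖ ⊆ ball x R := closedBall_subset_ball (by nlinarith)
  have h1 := (convex_closedBall x ‖z - x‖).norm_image_sub_le_of_norm_hasDerivWithin_le
    (f := fun v => h v - deriv h x * v) (f' := fun v => deriv h v - deriv h x)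
    (C := η * ‖deriv h x‖) (x := x) (y := z) ?_ ?_ (mem_closedBall_self (norm_nonneg _))
    (by rw [mem_closedBall, dist_eq_norm])
  · rwa [show h z - h x - deriv h x * (z - x) = h z - deriv h x * z - (h x - deriv h x * x) by ring]
  · intro v hv
    have := (hh.hasDerivAt isOpen_ball (hsub hv)).sub ((hasDerivAt_id v).const_mul (deriv h x))
    rw [mul_one] at this
    exact this.hasDerivWithinAt
  · intro v hv
    rw [mem_closedBall, dist_eq_norm] at hv
    exact lin_deriv hR hh hη (by linarith)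

theorem lin_val_le {h : ℂ → ℂ} {x : ℂ} {R : ℝ} (hR : 0 < R) (hh : Univ h (ball x R)) {z : ℂ}
    (hz : 34 * ‖z - x‖ ≤ R) : ‖h z - h x‖ ≤ 2 * ‖deriv h x‖ * ‖z - x‖ := by
  have h1 := lin_val hR hh (η := 1) (by norm_num) (z := z) (by linarith)
  have h2 := norm_add_le (h z - h x - deriv h x * (z - x)) (deriv h x * (z - x))
  rw [sub_add_cancel, norm_mul] at h2
  linarith

theorem mob_inv {a m : ℂ} (ha : ‖a‖ < 1) (hm : ‖m‖ < 1) : mob a (mob (-a) m) = m := by
  have h1 := mob_den (a := -a) (u := m) (by rwa [norm_neg]) hm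
  have h2 := mob_den ha (mob_lt (a := -a) (by rwa [norm_neg]) hm)
  rw [mob, div_eq_iff h2]
  have h3 : mob (-a) m * (1 + conj (-a) * m) = m + -a := div_mul_cancel₀ _ h1
  refine mul_right_cancel₀ h1 ?_
  rw [map_neg] at h3 ⊢
  linear_combination (1 - m * conj a) * h3

theorem growth_at {F : ℂ → ℂ} (hF : Univ F (ball 0 1)) {a m : ℂ} (ha : ‖a‖ < 1) (hm : ‖m‖ < 1) :
    ‖F m - F a‖ ≤ ‖deriv F a‖ * (1 - ‖a‖ ^ 2) / (1 - ‖mob (-a) m‖) ^ 2 := by
  have hG := hF.comp (mob_univ ha) isOpen_ball isOpen_ball (mob_maps ha)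
  have h1 := growth hG (mob_lt (a := -a) (by rwa [norm_neg]) hm)
  have h2 : deriv (fun z => F (mob a z)) 0 = deriv F a * ((1 - ‖a‖ ^ 2 : ℝ) : ℂ) := by
    have h3 := ((hF.hasDerivAt isOpen_ball (mob_maps ha (mem_ball_self one_pos))).comp 0
      (mob_deriv ha (u := 0) (by simp))).deriv
    refine h3.trans ?_
    simp [mob_zero]
  rwa [mob_inv ha hm, mob_zero, h2, norm_mul, Complex.norm_real, Real.norm_eq_abs,
    abs_of_nonneg (by nlinarith [norm_nonneg a])] at h1

theorem growth_from {F : ℂ → ℂ} (hF : Univ F (ball 0 1)) {a : ℂ} (ha : ‖a‖ < 1) :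
    ‖F 0 - F a‖ * (1 - ‖a‖) ≤ 2 * ‖deriv F a‖ := by
  have h1 := growth_at hF ha (m := 0) (by simp)
  have h2 : ‖mob (-a) 0‖ = ‖a‖ := by simp [mob]
  have h3 : 0 < 1 - ‖a‖ := by linarith
  rw [h2, le_div_iff₀ (by positivity)] at h1
  refine le_of_mul_le_mul_right ?_ h3
  nlinarith [norm_nonneg (deriv F a), norm_nonneg a, mul_nonneg (norm_nonneg (deriv F a)) h3.le]

/-- Two-point distortion estimate. -/
theorem two_point {F : ℂ → ℂ} (hF : Univ F (ball 0 1)) {a : ℂ} (ha : ‖a‖ < 1) :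
    ‖F 0 - F a‖ ^ 2 * (1 - ‖a‖) ≤ 32 * ‖deriv F 0‖ * ‖deriv F a‖ := by
  set ε := 1 - ‖a‖ with hε
  have hε0 : 0 < ε := by linarith
  have hε1 : ε ≤ 1 := by linarith [norm_nonneg a]
  set A := ‖deriv F 0‖ with hA
  set B := ‖deriv F a‖ with hB
  have hA0 : 0 < A := norm_pos_iff.mpr (hF.ne 0 (mem_ball_self one_pos))
  have hB0 : 0 < B := norm_pos_iff.mpr (hF.ne a (mem_ball_zero_iff.mpr ha))
  set d := ‖F 0 - F a‖ with hd
  have hd0 : 0 ≤ d := norm_nonneg _
  obtain ⟨l, hl0, hl⟩ : ∃ l : ℝ, 0 < l ∧ 8 * B * l ^ 2 = A * ε :=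
    ⟨√(A * ε / (8 * B)), Real.sqrt_pos.mpr (by positivity), by
      rw [Real.sq_sqrt (by positivity)]; field_simp⟩
  have hkey : d * l ≤ 2 * A := by
    rcases le_or_gt 1 l with h1 | h1
    · have h2 := growth_from hF ha
      rw [← hε, ← hd, ← hB] at h2
      refine le_of_mul_le_mul_right ?_ hε0
      have : d * ε * l ≤ 2 * B * l := by gcongr
      nlinarith only [mul_pos hB0 hl0, this, hl, h1, mul_pos hA0 hε0]
    rcases le_or_gt l (ε ^ 2) with h2 | h2
    · have h3 := growth hF ha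
      rw [← hε, norm_sub_rev, ← hd, ← hA, le_div_iff₀ (by positivity)] at h3
      linarith only [h3, mul_le_mul_of_nonneg_left h2 hd0, hA0]
    obtain ⟨x, hx0, hx⟩ : ∃ x : ℝ, 0 < x ∧ x ^ 2 = l := ⟨√l, Real.sqrt_pos.mpr hl0,
      Real.sq_sqrt hl0.le⟩
    have hx1 : x < 1 := by nlinarith only [hx, h1, hx0]
    have hxε : ε < x := by nlinarith only [hx, h2, hx0, hε0]
    obtain ⟨e, he, hae⟩ := exists_unit a
    set m : ℂ := ((1 - x : ℝ) : ℂ) * e with hm
    have hm1 : ‖m‖ = 1 - x := by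
      rw [hm, norm_mul, he, mul_one, Complex.norm_real, Real.norm_eq_abs, abs_of_pos (by linarith)]
    have h3 := growth hF (z := m) (by linarith)
    rw [hm1, sub_sub_cancel, hx, ← hA, le_div_iff₀ hl0] at h3
    have h4 := growth_at hF ha (m := m) (by linarith)
    have hden : 0 < 1 - ‖a‖ * (1 - x) := by
      linarith only [ha, mul_nonneg (norm_nonneg a) hx0.le]
    have h5 : ‖mob (-a) m‖ = (‖a‖ - (1 - x)) / (1 - ‖a‖ * (1 - x)) := by
      have h6 := conj_mul_self' e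
      rw [he] at h6
      have h7 : mob (-a) m = ((-((‖a‖ - (1 - x)) / (1 - ‖a‖ * (1 - x))) : ℝ) : ℂ) * e := by
        have h8 : 1 + conj (-a) * m = ((1 - ‖a‖ * (1 - x) : ℝ) : ℂ) := by
          rw [hm]
          conv_lhs => rw [hae]
          simp only [map_neg, map_mul, Complex.conj_ofReal]
          push_cast at h6 ⊢
          linear_combination (-(‖a‖ : ℂ) * (1 - x)) * h6
        have h9 : ((1 - ‖a‖ * (1 - x) : ℝ) : ℂ) ≠ 0 := Complex.ofReal_ne_zero.mpr hden.ne'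
        rw [mob, h8, div_eq_iff h9, hm, Complex.ofReal_neg, Complex.ofReal_div, mul_right_comm,
          neg_mul, div_mul_cancel₀ _ h9]
        conv_lhs => rw [hae]
        push_cast
        ring
      rw [h7, norm_mul, he, mul_one, Complex.norm_real, Real.norm_eq_abs, abs_neg,
        abs_of_nonneg (div_nonneg (by linarith) hden.le)]
    have h6 : ε / (2 * x) ≤ 1 - ‖mob (-a) m‖ := by
      rw [h5, one_sub_div hden.ne', div_le_div_iff₀ (by positivity) hden]
      have : ‖a‖ = 1 - ε := by linarith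
      rw [this]
      nlinarith only [mul_pos hε0 hx0, mul_pos hε0 (sub_pos.mpr hxε), mul_pos hx0 (sub_pos.mpr hx1),
        hε0, hε1, hx0, hx1, hxε]
    have h7 : ‖F m - F a‖ ≤ B * (2 * ε) / (ε / (2 * x)) ^ 2 := by
      refine h4.trans ?_
      gcongr
      linarith only [sq_nonneg (1 - ‖a‖), hε]
    have h8 : B * (2 * ε) / (ε / (2 * x)) ^ 2 * l = A := by
      field_simp
      rw [← hx] at hl ⊢
      linarith only [hl]
    have h9 : d ≤ ‖F m - F 0‖ + ‖F m - F a‖ := by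
      rw [hd, norm_sub_rev (F m) (F 0)]
      exact norm_sub_le_norm_sub_add_norm_sub _ _ _
    have : ‖F m - F a‖ * l ≤ A := by rw [← h8]; gcongr
    linarith only [this, h3, mul_le_mul_of_nonneg_right h9 hl0.le]
  have h1 : (d * l) ^ 2 ≤ (2 * A) ^ 2 := by gcongr
  refine le_of_mul_le_mul_right ?_ (show 0 < A by positivity)
  nlinarith only [mul_le_mul_of_nonneg_left h1 hB0.le, hl, sq_nonneg d]

/-- The inverse of a univalent map. -/
theorem Univ.inverse {g : ℂ → ℂ} {S : Set ℂ} (hg : Univ g S) (hS : IsOpen S) :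
    ∃ ι : ℂ → ℂ, (∀ u ∈ S, ι (g u) = u) ∧ DifferentiableOn ℂ ι (g '' S) := by
  refine ⟨Function.invFunOn g S, fun u hu => hg.inj.leftInvOn_invFunOn hu, ?_⟩
  rintro _ ⟨u, hu, rfl⟩
  have h1 : HasStrictDerivAt g (deriv g u) u :=
    (hg.diff.analyticAt (hS.mem_nhds hu)).hasStrictDerivAt
  refine (h1.to_local_left_inverse (hg.ne u hu) ?_).hasDerivAt.differentiableAt.differentiableWithinAt
  filter_upwards [hS.mem_nhds hu] with v hv using hg.inj.leftInvOn_invFunOn hv

end Pool.Agent.MP_28f8a1_an
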