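import Pool.Agent.MP_28f8a1_an.Bieber

/-! Distortion, growth and covering theorems for univalent functions. -/

set_option autoImplicit false

namespace Pool.Agent.MP_28f8a1_an

open Metric Set Real Filter Topology
open scoped ComplexConjugate

theorem Univ.hasDerivAt {F : ℂ → ℂ} {S : Set ℂ} (h : Univ F S) (hS : IsOpen S) {z : ℂ}
    (hz : z ∈ S) : HasDerivAt F (deriv F z) z := h.diff.hasDerivAt (hS.mem_nhds hz)

theorem Univ.of_hasDerivAt {F F' : ℂ → ℂ} {S : Set ℂ} (hd : ∀ z ∈ S, HasDerivAt F (F' z) z)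
    (hi : InjOn F S) (h0 : ∀ z ∈ S, F' z ≠ 0) : Univ F S :=
  ⟨fun z hz => (hd z hz).differentiableAt.differentiableWithinAt, hi,
    fun z hz => by rw [(hd z hz).deriv]; exact h0 z hz⟩

theorem Univ.comp {F G : ℂ → ℂ} {S T : Set ℂ} (hF : Univ F S) (hG : Univ G T) (hS : IsOpen S)
    (hT : IsOpen T) (hm : MapsTo G T S) : Univ (fun z => F (G z)) T :=
  Univ.of_hasDerivAt (F' := fun z => deriv F (G z) * deriv G z)
    (fun z hz => (hF.hasDerivAt hS (hm hz)).comp z (hG.hasDerivAt hT hz))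
    (hF.inj.comp hG.inj hm) (fun z hz => mul_ne_zero (hF.ne _ (hm hz)) (hG.ne z hz))

/-- Disc automorphism sending `0` to `a`. -/
noncomputable def mob (a u : ℂ) : ℂ := (u + a) / (1 + conj a * u)

theorem mob_den {a u : ℂ} (ha : ‖a‖ < 1) (hu : ‖u‖ < 1) : 1 + conj a * u ≠ 0 := by
  intro h
  have h1 : conj a * u = -1 := by linear_combination h
  have h2 := congrArg norm h1
  rw [norm_mul, Complex.norm_conj, norm_neg, norm_one] at h2
  nlinarith [norm_nonneg a, norm_nonneg u]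

theorem conj_mul_self' (a : ℂ) : conj a * a = ((‖a‖ ^ 2 : ℝ) : ℂ) := by
  rw [Complex.conj_mul', Complex.ofReal_pow]

theorem mob_deriv {a u : ℂ} (ha : ‖a‖ < 1) (hu : ‖u‖ < 1) :
    HasDerivAt (mob a) (((1 - ‖a‖ ^ 2 : ℝ) : ℂ) / (1 + conj a * u) ^ 2) u := by
  have h := ((hasDerivAt_id u).add_const a).div (((hasDerivAt_id u).const_mul (conj a)).const_add 1)
    (mob_den ha hu)
  refine h.congr_deriv ?_
  rw [Complex.ofReal_sub, ← conj_mul_self']
  simp only [id, Complex.ofReal_one]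
  congr 1
  ring

theorem mob_lt {a u : ℂ} (ha : ‖a‖ < 1) (hu : ‖u‖ < 1) : ‖mob a u‖ < 1 := by
  rw [mob, norm_div, div_lt_one (norm_pos_iff.mpr (mob_den ha hu)),
    ← pow_lt_pow_iff_left₀ (norm_nonneg _) (norm_nonneg _) two_ne_zero]
  have h1 : 0 < (1 - ‖a‖ ^ 2) * (1 - ‖u‖ ^ 2) :=
    mul_pos (by nlinarith [norm_nonneg a]) (by nlinarith [norm_nonneg u])
  simp only [← Complex.normSq_eq_norm_sq, Complex.normSq_apply] at h1 ⊢
  simp
  nlinarith

theorem mob_univ {a : ℂ} (ha : ‖a‖ < 1) : Univ (mob a) (ball 0 1) := by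
  refine Univ.of_hasDerivAt (fun u hu => mob_deriv ha (mem_ball_zero_iff.mp hu)) ?_ ?_
  · intro u hu v hv h
    have h1 := mob_den ha (mem_ball_zero_iff.mp hu)
    have h2 := mob_den ha (mem_ball_zero_iff.mp hv)
    have h3 : 1 - conj a * a ≠ 0 := by
      have := mob_den ha (u := -a) (by rwa [norm_neg])
      rwa [mul_neg, ← sub_eq_add_neg] at this
    unfold mob at h
    rw [div_eq_div_iff h1 h2] at h
    have : (1 - conj a * a) * (u - v) = 0 := by linear_combination h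
    exact sub_eq_zero.mp ((mul_eq_zero.mp this).resolve_left h3)
  · intro u hu
    refine div_ne_zero ?_ (pow_ne_zero _ (mob_den ha (mem_ball_zero_iff.mp hu)))
    exact Complex.ofReal_ne_zero.mpr (by nlinarith [norm_nonneg a])

theorem mob_maps {a : ℂ} (ha : ‖a‖ < 1) : MapsTo (mob a) (ball 0 1) (ball 0 1) :=
  fun _ hu => mem_ball_zero_iff.mpr (mob_lt ha (mem_ball_zero_iff.mp hu))

theorem mob_zero (a : ℂ) : mob a 0 = a := by simp [mob]

theorem pre_schwarz {F : ℂ → ℂ} (hF : Univ F (ball 0 1)) {a : ℂ} (ha : ‖a‖ < 1) :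
    ‖((1 - ‖a‖ ^ 2 : ℝ) : ℂ) * (deriv (deriv F) a / deriv F a) - 2 * conj a‖ ≤ 4 := by
  have hG := hF.comp (mob_univ ha) isOpen_ball isOpen_ball (mob_maps ha)
  have hb := bieberbach hG
  have hn : ball (0 : ℂ) 1 ∈ 𝓝 (0 : ℂ) := ball_mem_nhds 0 one_pos
  have haa : a ∈ ball (0 : ℂ) 1 := mem_ball_zero_iff.mpr ha
  have h1 : deriv (fun z => F (mob a z)) =ᶠ[𝓝 0]
      fun u => deriv F (mob a u) * (((1 - ‖a‖ ^ 2 : ℝ) : ℂ) / (1 + conj a * u) ^ 2) := by
    filter_upwards [hn] with u hu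
    exact ((hF.hasDerivAt isOpen_ball (mob_maps ha hu)).comp u
      (mob_deriv ha (mem_ball_zero_iff.mp hu))).deriv
  have h2 : HasDerivAt (deriv F) (deriv (deriv F) a) (mob a 0) := by
    rw [mob_zero]
    exact (hF.diff.deriv isOpen_ball).hasDerivAt (isOpen_ball.mem_nhds haa)
  have h3 := (h2.comp 0 (mob_deriv ha (u := 0) (by simp))).mul
    ((hasDerivAt_const (0 : ℂ) ((1 - ‖a‖ ^ 2 : ℝ) : ℂ)).div
      ((((hasDerivAt_id (0 : ℂ)).const_mul (conj a)).const_add 1).pow 2) (by simp))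
  set k : ℂ := ((1 - ‖a‖ ^ 2 : ℝ) : ℂ) with hk
  have hk0 : k ≠ 0 := Complex.ofReal_ne_zero.mpr (by nlinarith [norm_nonneg a])
  have hA := hF.ne a haa
  have h4 : deriv (deriv fun z => F (mob a z)) 0 =
      (deriv F a * k) * (k * (deriv (deriv F) a / deriv F a) - 2 * conj a) := by
    rw [h1.deriv_eq]
    refine h3.deriv.trans ?_
    simp [mob_zero]
    field_simp
    ring
  have h5 : deriv (fun z => F (mob a z)) 0 = deriv F a * k := by
    rw [h1.eq_of_nhds]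
    simp [mob_zero]
  rw [h4, h5, norm_mul, mul_comm 4] at hb
  exact le_of_mul_le_mul_left hb (norm_pos_iff.mpr (mul_ne_zero hA hk0))

theorem exists_unit (z : ℂ) : ∃ e : ℂ, ‖e‖ = 1 ∧ z = (‖z‖ : ℝ) * e := by
  by_cases h : z = 0
  · exact ⟨1, by simp, by simp [h]⟩
  · have h1 : ((‖z‖ : ℝ) : ℂ) ≠ 0 := by simpa using h
    exact ⟨z / (‖z‖ : ℝ), by simp [h], by field_simp⟩

theorem ray_deriv {G : ℂ → ℂ} {G' e : ℂ} {s : ℝ} (h : HasDerivAt G G' (s * e)) :
    HasDerivAt (fun s : ℝ => G (s * e)) (G' * e) s := by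
  have h1 : HasDerivAt (fun w : ℂ => w * e) e (s : ℂ) := by
    simpa using (hasDerivAt_id (s : ℂ)).mul_const e
  exact (h.comp (s : ℂ) h1).comp_ofReal

/-- Upper distortion bound. -/
theorem distortion {F : ℂ → ℂ} (hF : Univ F (ball 0 1)) {z : ℂ} (hz : ‖z‖ < 1) :
    ‖deriv F z‖ ≤ 2 * ‖deriv F 0‖ / (1 - ‖z‖) ^ 3 := by
  obtain ⟨e, he, hze⟩ := exists_unit z
  obtain ⟨L, hL, hLF⟩ := exists_log (hF.diff.deriv isOpen_ball) hF.ne
  have hmem : ∀ s ∈ Icc (0 : ℝ) ‖z‖, ‖(s : ℂ) * e‖ = s := fun s hs => by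
    rw [norm_mul, he, mul_one, Complex.norm_real, Real.norm_eq_abs, abs_of_nonneg hs.1]
  have hmem' : ∀ s ∈ Icc (0 : ℝ) ‖z‖, (s : ℂ) * e ∈ ball (0 : ℂ) 1 := fun s hs => by
    rw [mem_ball_zero_iff, hmem s hs]
    exact hs.2.trans_lt hz
  have hL' : ∀ w ∈ ball (0 : ℂ) 1, HasDerivAt L (deriv (deriv F) w / deriv F w) w := by
    intro w hw
    have hn := isOpen_ball.mem_nhds hw
    have h1 := (hL.hasDerivAt hn).cexp
    have h2 : deriv F =ᶠ[𝓝 w] fun v => Complex.exp (L v) := by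
      filter_upwards [hn] with v hv using (hLF v hv).symm
    have h3 := (h1.congr_of_eventuallyEq h2).deriv
    rw [h3, hLF w hw, mul_div_cancel_left₀ _ (hF.ne w hw)]
    exact hL.hasDerivAt hn
  have hd : ∀ s ∈ Icc (0 : ℝ) ‖z‖, HasDerivAt (fun s : ℝ => (L (s * e)).re)
      (deriv (deriv F) (s * e) / deriv F (s * e) * e).re s := fun s hs =>
    Complex.reCLM.hasFDerivAt.comp_hasDerivAt s (ray_deriv (hL' _ (hmem' s hs)))
  have hB : ∀ s ∈ Icc (0 : ℝ) ‖z‖, HasDerivAt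
      (fun s : ℝ => (L 0).re + (Real.log (1 + s) - 3 * Real.log (1 - s)))
      (1 / (1 + s) - 3 * (-1 / (1 - s))) s := by
    intro s hs
    have h1 : 0 < 1 + s := by linarith [hs.1]
    have h2 : 0 < 1 - s := by linarith [hs.2]
    exact ((((hasDerivAt_id s).const_add 1).log h1.ne').sub
      ((((hasDerivAt_id s).const_sub 1).log h2.ne').const_mul 3)).const_add _
  have key := image_le_of_deriv_right_le_deriv_boundary
    (fun s hs => (hd s hs).continuousAt.continuousWithinAt)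
    (fun s hs => (hd s (Ico_subset_Icc_self hs)).hasDerivWithinAt) (by simp)
    (fun s hs => (hB s hs).continuousAt.continuousWithinAt)
    (fun s hs => (hB s (Ico_subset_Icc_self hs)).hasDerivWithinAt) ?_
    (right_mem_Icc.mpr (norm_nonneg z))
  · rw [← hze] at key
    have h1 : 0 < 1 + ‖z‖ := by positivity
    have h2 : 0 < 1 - ‖z‖ := by linarith
    rw [← hLF z (mem_ball_zero_iff.mpr hz), ← hLF 0 (mem_ball_self one_pos), Complex.norm_exp,
      Complex.norm_exp]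
    refine (Real.exp_le_exp.mpr key).trans ?_
    rw [Real.exp_add, Real.exp_sub, Real.exp_log h1, show 3 * Real.log (1 - ‖z‖) =
      Real.log ((1 - ‖z‖) ^ 3) by simp, Real.exp_log (by positivity), ← mul_div_assoc]
    refine div_le_div_of_nonneg_right ?_ (by positivity)
    nlinarith [Real.exp_pos (L 0).re]
  · intro s hs
    have hs' := Ico_subset_Icc_self hs
    have h1 : 0 < 1 + s := by linarith [hs.1]
    have h2 : 0 < 1 - s := by linarith [hs.2]
    have h3 := pre_schwarz hF (mem_ball_zero_iff.mp (hmem' s hs'))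
    rw [hmem s hs'] at h3
    set X := deriv (deriv F) (s * e) / deriv F (s * e)
    have h4 : (((1 - s ^ 2 : ℝ) : ℂ) * X - 2 * conj ((s : ℂ) * e)) * e =
        ((1 - s ^ 2 : ℝ) : ℂ) * (X * e) - ((2 * s : ℝ) : ℂ) := by
      have := conj_mul_self' e
      rw [he] at this
      simp only [map_mul, Complex.conj_ofReal]
      push_cast at this ⊢
      linear_combination (-2 * s) * this
    have h5 := Complex.re_le_norm ((((1 - s ^ 2 : ℝ) : ℂ) * X - 2 * conj ((s : ℂ) * e)) * e)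
    rw [norm_mul, he, mul_one, h4, Complex.sub_re, Complex.re_ofReal_mul, Complex.ofReal_re] at h5
    have h6 : 1 / (1 + s) - 3 * (-1 / (1 - s)) = (4 + 2 * s) / (1 - s ^ 2) := by
      have : 1 - s ^ 2 = (1 + s) * (1 - s) := by ring
      rw [this]
      field_simp
      ring
    rw [h6, le_div_iff₀ (by nlinarith)]
    linarith

/-- Growth bound. -/
theorem growth {F : ℂ → ℂ} (hF : Univ F (ball 0 1)) {z : ℂ} (hz : ‖z‖ < 1) :
    ‖F z - F 0‖ ≤ ‖deriv F 0‖ / (1 - ‖z‖) ^ 2 := by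
  obtain ⟨e, he, hze⟩ := exists_unit z
  have hmem : ∀ s ∈ Icc (0 : ℝ) ‖z‖, ‖(s : ℂ) * e‖ = s := fun s hs => by
    rw [norm_mul, he, mul_one, Complex.norm_real, Real.norm_eq_abs, abs_of_nonneg hs.1]
  have hmem' : ∀ s ∈ Icc (0 : ℝ) ‖z‖, ‖(s : ℂ) * e‖ < 1 := fun s hs => by
    rw [hmem s hs]
    exact hs.2.trans_lt hz
  have hd : ∀ s ∈ Icc (0 : ℝ) ‖z‖, HasDerivAt (fun s : ℝ => F (s * e) - F 0)
      (deriv F (s * e) * e) s := fun s hs =>
    (ray_deriv (hF.hasDerivAt isOpen_ball (mem_ball_zero_iff.mpr (hmem' s hs)))).sub_const _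
  have hB : ∀ s ∈ Icc (0 : ℝ) ‖z‖, HasDerivAt (fun s : ℝ => ‖deriv F 0‖ / (1 - s) ^ 2)
      (2 * ‖deriv F 0‖ / (1 - s) ^ 3) s := by
    intro s hs
    have h2 : 0 < 1 - s := by linarith [hs.2]
    refine ((hasDerivAt_const s ‖deriv F 0‖).div (((hasDerivAt_id s).const_sub 1).pow 2)
      (pow_ne_zero 2 h2.ne')).congr_deriv ?_
    simp
    field_simp
  have key := image_norm_le_of_norm_deriv_right_le_deriv_boundary'
    (fun s hs => (hd s hs).continuousAt.continuousWithinAt)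
    (fun s hs => (hd s (Ico_subset_Icc_self hs)).hasDerivWithinAt) (by simp)
    (fun s hs => (hB s hs).continuousAt.continuousWithinAt)
    (fun s hs => (hB s (Ico_subset_Icc_self hs)).hasDerivWithinAt) ?_
    (right_mem_Icc.mpr (norm_nonneg z))
  · rwa [← hze] at key
  · intro s hs
    have hs' := Ico_subset_Icc_self hs
    have := distortion hF (hmem' s hs')
    rw [hmem s hs'] at this
    rwa [norm_mul, he, mul_one]

/-- Koebe's one-quarter theorem on the unit disc. -/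
theorem koebe_unit {F : ℂ → ℂ} (hF : Univ F (ball 0 1)) {w : ℂ} (hw : w ∉ F '' ball 0 1) :
    ‖deriv F 0‖ ≤ 4 * ‖F 0 - w‖ := by
  have hne : ∀ z ∈ ball (0 : ℂ) 1, F z - w ≠ 0 := fun z hz h =>
    hw ⟨z, hz, sub_eq_zero.mp h⟩
  have h01 : (0 : ℂ) ∈ ball (0 : ℂ) 1 := mem_ball_self one_pos
  have hn : ball (0 : ℂ) 1 ∈ 𝓝 (0 : ℂ) := ball_mem_nhds 0 one_pos
  have hd : ∀ z ∈ ball (0 : ℂ) 1, HasDerivAt (fun z => (F z - w)⁻¹) (-deriv F z / (F z - w) ^ 2) z :=
    fun z hz => ((hF.hasDerivAt isOpen_ball hz).sub_const w).inv (hne z hz)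
  have hG : Univ (fun z => (F z - w)⁻¹) (ball 0 1) := Univ.of_hasDerivAt hd
    (fun u hu v hv h => hF.inj hu hv (sub_left_injective (inv_injective h)))
    (fun z hz => div_ne_zero (neg_ne_zero.mpr (hF.ne z hz)) (pow_ne_zero _ (hne z hz)))
  have h1 := bieberbach hG
  have h2 := bieberbach hF
  have h3 : deriv (fun z => (F z - w)⁻¹) =ᶠ[𝓝 0] fun z => -deriv F z / (F z - w) ^ 2 := by
    filter_upwards [hn] with z hz using (hd z hz).deriv
  have h4 := (((hF.diff.deriv isOpen_ball).hasDerivAt hn).neg.div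
    (((hF.hasDerivAt isOpen_ball h01).sub_const w).pow 2) (pow_ne_zero _ (hne 0 h01))).deriv
  set A := deriv F 0
  set B := deriv (deriv F) 0
  set d := F 0 - w with hd'
  have hd0 : d ≠ 0 := hne 0 h01
  have hA : A ≠ 0 := hF.ne 0 h01
  have h5 : deriv (deriv fun z => (F z - w)⁻¹) 0 = (2 * A ^ 2 / d - B) / d ^ 2 := by
    rw [h3.deriv_eq]
    refine h4.trans ?_
    simp only [Pi.neg_apply, Pi.pow_apply, ← hd']
    field_simp
    push_cast
    ring
  rw [h5, h3.eq_of_nhds, norm_div, norm_div, norm_neg, ← mul_div_assoc,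
    div_le_div_iff_of_pos_right (norm_pos_iff.mpr (pow_ne_zero 2 hd0))] at h1
  have h6 := norm_sub_norm_le (2 * A ^ 2 / d) B
  rw [norm_div, norm_mul, norm_pow, Complex.norm_ofNat] at h6
  have h7 : 2 * ‖A‖ ^ 2 / ‖d‖ ≤ 8 * ‖A‖ := by linarith
  rw [div_le_iff₀ (by positivity)] at h7
  have := norm_pos_iff.mpr hA
  nlinarith

end Pool.Agent.MP_28f8a1_an
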