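import Pool.Agent.MP_28f8a1_an.Branch

/-! Univalent pull-back along orbits avoiding a small disc, under large derivatives. -/

set_option autoImplicit false

namespace Pool.Agent.MP_28f8a1_an

open MeasureTheory Metric Set Real Filter Topology
open scoped ENNReal

variable {e : ℕ} {c : ℂ}

/-- Large derivatives at returns of the critical value to the disc of radius `t`. -/
def LDs (e : ℕ) (c : ℂ) (t K : ℝ) : Prop :=
  ∀ n, ‖(fq e c)^[n] c‖ < t → K ≤ ‖Pd e c c n‖ * t ^ e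

theorem branch_of {t : ℝ} (ht : 0 < t) {m : ℕ} {F : ℂ → ℂ} (hF : DifferentiableOn ℂ F (ball 0 1))
    (hg : Univ (fun u => (fq e c)^[m] (F u)) (ball 0 1))
    (hd : t / 4 ≤ ‖deriv (fun u => (fq e c)^[m] (F u)) 0‖) (hy : ‖(fq e c)^[m] (F 0)‖ ≤ t / 2048) :
    ∃ h, Br e c m h (ball 0 (t / 32)) ∧ h ((fq e c)^[m] (F 0)) = F 0 := by
  obtain ⟨ι, hι, hιd⟩ := hg.inverse isOpen_ball
  have hsub : ball (0 : ℂ) (t / 32) ⊆ (fun u => (fq e c)^[m] (F u)) '' ball 0 1 := by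
    refine subset_trans ?_ (koebe one_pos hg)
    refine ball_subset_ball' ?_
    rw [dist_zero_left]
    linarith
  refine ⟨fun w => F (ι w), ⟨hF.comp (hιd.mono hsub) fun w hw => ?_, fun w hw => ?_⟩, ?_⟩
  · obtain ⟨u, hu, rfl⟩ := hsub hw
    rwa [hι u hu]
  · obtain ⟨u, hu, rfl⟩ := hsub hw
    rw [hι u hu]
  · simp only [hι 0 (mem_ball_self one_pos)]

theorem comp_deriv {m : ℕ} {F : ℂ → ℂ} (hF : DifferentiableOn ℂ F (ball 0 1)) {u : ℂ}
    (hu : u ∈ ball (0 : ℂ) 1) :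
    deriv (fun u => (fq e c)^[m] (F u)) u = Pd e c (F u) m * deriv F u :=
  ((iter_deriv m (F u)).comp u (hF.hasDerivAt (isOpen_ball.mem_nhds hu))).deriv

theorem event {t θ K : ℝ} (ht : 0 < t) (hθ : 0 < θ) (hθ1 : θ ≤ 1)
    (hK : 10 ^ 6 * (e + 1 : ℕ) ≤ K * θ ^ (e + 2)) (hLD : LDs e c t K) {m : ℕ} {z : ℂ}
    (hz : θ * t ≤ ‖z‖) {F : ℂ → ℂ} (hF : DifferentiableOn ℂ F (ball 0 1)) (hF0 : F 0 = fq e c z)
    (hg : Univ (fun u => (fq e c)^[m] (F u)) (ball 0 1))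
    (hmaps : MapsTo (fun u => (fq e c)^[m] (F u)) (ball 0 1) (ball ((fq e c)^[m] (F 0)) (t / 2)))
    (hy : ‖(fq e c)^[m] (F 0)‖ ≤ t / 2048) :
    ∃ (φ : ℂ → ℂ) (ε κ : ℝ), Univ φ (ball 0 1) ∧ MapsTo φ (ball 0 1) (ball 0 1) ∧ φ 0 = 0 ∧
      1 - 5 * ε ^ 2 ≤ ‖deriv φ 0‖ ∧ 5 * ε ^ 2 ≤ 1 / 4 ∧ (∀ u ∈ ball (0 : ℂ) 1, F (φ u) ≠ c) ∧
      volume ((fun u => (fq e c)^[m] (F (φ u))) '' ball 0 1) +
        ENNReal.ofReal (π * (κ * t / 8) ^ 2) ≤ volume ((fun u => (fq e c)^[m] (F u)) '' ball 0 1) ∧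
      ε ^ 2 * (K * θ ^ (e + 2)) ≤
        16 * (e + 1 : ℕ) * (κ * (θ ^ 2 * t ^ 2 * ‖Pd e c z (m + 1)‖⁻¹ / ‖z‖ ^ 2)) := by
  by_cases hc : ∃ ζ ∈ ball (0 : ℂ) 1, F ζ = c
  swap
  · refine ⟨id, 0, 0, Univ.of_hasDerivAt (fun u _ => hasDerivAt_id u) (injOn_id _)
      (fun _ _ => one_ne_zero), mapsTo_id _, rfl, by simp, by norm_num,
      fun u hu h => hc ⟨u, hu, h⟩, by simp, by simp⟩
  obtain ⟨ζ, hζ, hζc⟩ := hc
  set g := fun u => (fq e c)^[m] (F u) with hgdef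
  have h01 : (0 : ℂ) ∈ ball (0 : ℂ) 1 := mem_ball_self one_pos
  have hFu : Univ F (ball 0 1) := ⟨hF, fun u hu v hv h => hg.inj hu hv (by simp only [hgdef, h]),
    fun u hu => right_ne_zero_of_mul (comp_deriv hF hu ▸ hg.ne u hu)⟩
  have hζ1 : ‖ζ‖ < 1 := mem_ball_zero_iff.mp hζ
  set ε := 1 - ‖ζ‖ with hε
  have hε0 : 0 < ε := by linarith
  have hsub : ball ζ ε ⊆ ball 0 1 := ball_subset_ball' (by rw [dist_zero_right]; linarith)
  have hd1 : (1 : ℝ) ≤ (e + 1 : ℕ) := by exact_mod_cast Nat.le_add_left 1 e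
  have hθe : 0 < θ ^ (e + 1) := by positivity
  have hK1 : 10 ^ 6 ≤ K * θ ^ (e + 2) := by linarith only [hK, hd1]
  have hK0 : 0 < K := (mul_pos_iff_of_pos_right (b := θ ^ (e + 2)) (by positivity)).mp (by linarith)
  have hK2 : 10 ^ 6 ≤ K * θ ^ (e + 1) := by
    refine hK1.trans ?_
    rw [pow_succ θ (e + 1)]
    linarith only [mul_le_mul_of_nonneg_left hθ1 (mul_pos hK0 hθe).le]
  have hp : g ζ = (fq e c)^[m] c := by simp only [hgdef, hζc]
  have hpt : ‖(fq e c)^[m] c‖ < t := by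
    have h1 := hmaps hζ
    rw [mem_ball, dist_eq_norm, hp] at h1
    linarith [norm_sub_norm_le ((fq e c)^[m] c) ((fq e c)^[m] (F 0))]
  have hsch : ‖deriv g ζ‖ ≤ t / ε := by
    refine Complex.norm_deriv_le_div_of_mapsTo_ball (hg.diff.mono hsub) (fun u hu => ?_) hε0
    have h1 := hmaps (hsub hu)
    have h2 := hmaps hζ
    rw [mem_ball] at h1 h2
    rw [mem_closedBall]
    linarith [dist_triangle_right (g u) (g ζ) ((fq e c)^[m] (F 0))]
  have hsch0 : ‖deriv g 0‖ ≤ t / 2 := by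
    simpa using Complex.norm_deriv_le_div_of_mapsTo_ball hg.diff
      (hmaps.mono_right ball_subset_closedBall) one_pos
  set κ := ‖deriv g ζ‖ * ε / t with hκ
  have hκ0 : 0 ≤ κ := by positivity
  have hκ1 : κ ≤ 1 := by
    rw [hκ, div_le_one ht]
    rwa [le_div_iff₀ hε0] at hsch
  set A := ‖deriv F 0‖ with hA
  set B := ‖deriv F ζ‖ with hB
  have hB0 : 0 ≤ B := norm_nonneg _
  have hA0 : 0 ≤ A := norm_nonneg _
  have hBK : B * ε * K ≤ κ * t ^ (e + 1) := by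
    have h1 := hLD m hpt
    have h2 : ‖deriv g ζ‖ = ‖Pd e c c m‖ * B := by rw [hgdef, comp_deriv hF hζ, norm_mul, hζc]
    calc B * ε * K ≤ B * ε * (‖Pd e c c m‖ * t ^ e) := by gcongr
      _ = κ * t ^ (e + 1) := by
        rw [hκ, h2]
        field_simp
        ring
  set σ := ‖z‖ with hσ
  have hσ0 : 0 < σ := (mul_pos hθ ht).trans_le hz
  have hQ : ‖F 0 - F ζ‖ = σ ^ (e + 1) := by rw [hF0, hζc, fq, add_sub_cancel_right, norm_pow]
  have hQ1 : θ ^ (e + 1) * t ^ (e + 1) ≤ σ ^ (e + 1) := by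
    rw [← mul_pow]
    gcongr
  set Q := σ ^ (e + 1) with hQd
  have hQ0 : 0 < Q := by positivity
  set T := t ^ (e + 1) with hT
  have hT0 : 0 < T := by positivity
  have hKQ : 10 ^ 6 * T ≤ K * Q := by
    linarith only [mul_le_mul_of_nonneg_right hK2 hT0.le, mul_le_mul_of_nonneg_left hQ1 hK0.le]
  have hε2 : ε < 1 / 2 := by
    by_contra hcon
    have h1 := growth_from hFu hζ1
    rw [hQ, ← hε, ← hB] at h1
    have h2 : Q * ε * ε * K ≤ 2 * B * ε * K := by gcongr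
    have h3 : 1 / 4 ≤ ε * ε := by nlinarith only [not_lt.mp hcon]
    linarith only [mul_le_mul_of_nonneg_left h3 (mul_pos hK0 hQ0).le, h2, hBK,
      mul_le_mul_of_nonneg_right h1 (mul_pos hε0 hK0).le,
      mul_le_mul_of_nonneg_right hκ1 hT0.le, hKQ, hT0]
  have hAQ : A ≤ 8 * Q := by
    have h1 := koebe_omit (R := ‖ζ‖) (by linarith) (hFu.mono (ball_subset_ball hζ1.le)) (w := F ζ) (by
      rintro ⟨u, hu, h⟩
      rw [hFu.inj (ball_subset_ball hζ1.le hu) hζ h] at hu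
      simp at hu)
    rw [hQ, ← hA] at h1
    have h2 : 1 / 2 ≤ ‖ζ‖ := by linarith only [hε2, hε]
    linarith only [h1, mul_le_mul_of_nonneg_left h2 hA0]
  have hTP : Q ^ 2 * ε ^ 2 * K ≤ 32 * A * (κ * T) := by
    have h1 := two_point hFu hζ1
    rw [hQ, ← hε, ← hA, ← hB] at h1
    calc Q ^ 2 * ε ^ 2 * K = Q ^ 2 * ε * (ε * K) := by ring
      _ ≤ 32 * A * B * (ε * K) := by gcongr
      _ = 32 * A * (B * ε * K) := by ring
      _ ≤ _ := by gcongr
  obtain ⟨φ, hφ, hφm, hφ0, hφd, hφo⟩ := exists_cap (ζ := ζ) (by linarith) hζ1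
  refine ⟨φ, ε, κ, hφ, hφm, hφ0, hφd, ?_, fun u hu h => ?_, ?_, ?_⟩
  · have h1 : Q ^ 2 * ε ^ 2 * K ≤ 32 * (8 * Q) * (1 * T) := hTP.trans (by gcongr)
    have h2 : ε ^ 2 * (K * Q) ≤ 256 * T := by
      refine le_of_mul_le_mul_left ?_ hQ0
      linarith
    have h3 : ε ^ 2 * (10 ^ 6 * T) ≤ 256 * T := le_trans (by gcongr) h2
    refine le_of_mul_le_mul_right ?_ hT0
    linarith only [h3, hT0]
  · refine hφo u hu ?_
    rw [hFu.inj (hφm hu) hζ (h.trans hζc.symm)]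
    exact mem_ball_self (by linarith)
  · have hs2 : ball ζ (ε / 2) ⊆ ball 0 1 := (ball_subset_ball (by linarith)).trans hsub
    have h1 := koebe (R := ε / 2) (by linarith) (hg.mono hs2)
    rw [show ‖deriv g ζ‖ * (ε / 2) / 4 = κ * t / 8 by rw [hκ]; field_simp; ring] at h1
    rw [← vol_ball (g ζ) (by positivity), ← measure_union ?_ measurableSet_ball]
    · refine measure_mono (union_subset ?_ (h1.trans (image_mono hs2)))
      rintro _ ⟨u, hu, rfl⟩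
      exact ⟨φ u, hφm hu, rfl⟩
    · refine disjoint_left.mpr ?_
      rintro _ ⟨u, hu, rfl⟩ hmem
      obtain ⟨v, hv, hvu⟩ := h1 hmem
      exact hφo u hu (hg.inj (hs2 hv) (hφm hu) hvu ▸ hv)
  · have h1 : ‖deriv g 0‖ = ‖Pd e c (fq e c z) m‖ * A := by
      rw [hgdef, comp_deriv hF h01, norm_mul, hF0]
    have h2 : ‖Pd e c z (m + 1)‖ = ‖Pd e c (fq e c z) m‖ * ((e + 1 : ℕ) * σ ^ e) := by
      rw [Pd_succ, norm_mul, norm_mul, norm_pow, Complex.norm_natCast]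
    have h3 : 0 < ‖Pd e c (fq e c z) m‖ := by
      refine norm_pos_iff.mpr ?_
      have := hg.ne 0 h01
      rw [hgdef, comp_deriv hF h01, hF0] at this
      exact left_ne_zero_of_mul this
    set P := ‖Pd e c (fq e c z) m‖
    have h4 : A ≤ t / 2 / P := by
      rw [le_div_iff₀ h3]
      linarith
    have h5 : Q ^ 2 * ε ^ 2 * K ≤ 32 * (t / 2 / P) * (κ * T) := hTP.trans (by gcongr)
    have h6 : θ ^ e * t ^ e ≤ σ ^ e := by
      rw [← mul_pow]
      gcongr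
    have hte : 0 < t ^ e := by positivity
    have hσe : 0 < σ ^ e := by positivity
    rw [h2]
    have h7 : 16 * ((e + 1 : ℕ) : ℝ) * (κ * (θ ^ 2 * t ^ 2 * (P * ((e + 1 : ℕ) * σ ^ e))⁻¹ / σ ^ 2)) =
        32 * (t / 2 / P) * (κ * T) * (θ ^ 2 / (t ^ e * σ ^ e * σ ^ 2)) := by
      rw [hT]
      field_simp
      ring
    rw [h7]
    refine le_trans ?_ (mul_le_mul_of_nonneg_right h5 (by positivity))
    have h8 : Q ^ 2 * ε ^ 2 * K * (θ ^ 2 / (t ^ e * σ ^ e * σ ^ 2)) =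
        ε ^ 2 * (K * (σ ^ e / t ^ e * θ ^ 2)) := by
      rw [hQd]
      field_simp
      ring
    rw [h8, pow_add]
    gcongr
    rwa [le_div_iff₀ hte]

theorem exists_root {F : ℂ → ℂ} (hF : DifferentiableOn ℂ F (ball 0 1))
    (hc : ∀ u ∈ ball (0 : ℂ) 1, F u ≠ c) {z : ℂ} (hz : F 0 = fq e c z) :
    ∃ G : ℂ → ℂ, DifferentiableOn ℂ G (ball 0 1) ∧ G 0 = z ∧
      ∀ u ∈ ball (0 : ℂ) 1, fq e c (G u) = F u := by
  obtain ⟨L, hL, hLF⟩ := exists_log (hF.sub_const c) (fun u hu => sub_ne_zero.mpr (hc u hu))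
  have hd : ((e + 1 : ℕ) : ℂ) ≠ 0 := Nat.cast_ne_zero.mpr (Nat.succ_ne_zero e)
  refine ⟨fun u => z * Complex.exp ((L u - L 0) / (e + 1 : ℕ)),
    (((hL.sub_const _).div_const _).cexp).const_mul z, by simp, fun u hu => ?_⟩
  have h0 := hLF 0 (mem_ball_self one_pos)
  rw [hz, fq, add_sub_cancel_right] at h0
  rw [fq, mul_pow, ← Complex.exp_nat_mul, mul_div_cancel₀ _ hd, ← h0, ← Complex.exp_add,
    add_sub_cancel, hLF u hu, sub_add_cancel]

theorem lemmaU_inv (he : 1 ≤ e) {t θ K : ℝ} (ht : 0 < t) (hθ : 0 < θ) (hθ1 : θ ≤ 1 / 512)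
    (hK : 10 ^ 6 * (e + 1 : ℕ) ≤ K * θ ^ (e + 2)) (hLD : LDs e c t K) (m : ℕ) :
    ∀ z : ℂ, ‖(fq e c)^[m] z‖ ≤ t / 2048 → (∀ j < m, θ * t ≤ ‖(fq e c)^[j] z‖) →
    ∃ (F : ℂ → ℂ) (ε κ : ℕ → ℝ), DifferentiableOn ℂ F (ball 0 1) ∧ F 0 = z ∧
      Univ (fun u => (fq e c)^[m] (F u)) (ball 0 1) ∧
      MapsTo (fun u => (fq e c)^[m] (F u)) (ball 0 1) (ball ((fq e c)^[m] z) (t / 2)) ∧
      t / 2 * (1 - 5 * ∑ j ∈ Finset.range m, ε j ^ 2) ≤ ‖deriv (fun u => (fq e c)^[m] (F u)) 0‖ ∧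
      volume ((fun u => (fq e c)^[m] (F u)) '' ball 0 1) +
        ENNReal.ofReal (∑ j ∈ Finset.range m, π * (κ j * t / 8) ^ 2) ≤
          ENNReal.ofReal (π * (t / 2) ^ 2) ∧
      (∀ j < m, ε j ^ 2 * (K * θ ^ (e + 2)) ≤ 16 * (e + 1 : ℕ) * (κ j * (θ ^ 2 * t ^ 2 *
        ‖Pd e c ((fq e c)^[j] z) (m - j)‖⁻¹ / ‖(fq e c)^[j] z‖ ^ 2))) ∧
      5 * ∑ j ∈ Finset.range m, ε j ^ 2 ≤ 1 / 4 := by
  induction m with
  | zero =>
    intro z _ _
    have ht2 : 0 < t / 2 := by positivity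
    have hR' : ((t / 2 : ℝ) : ℂ) ≠ 0 := Complex.ofReal_ne_zero.mpr ht2.ne'
    refine ⟨fun u => z + (t / 2 : ℝ) * u, fun _ => 0, fun _ => 0, by fun_prop, by simp, ?_,
      scale_maps z ht2, ?_, ?_, by simp, by norm_num⟩
    · exact Univ.of_hasDerivAt (fun u _ => scale_deriv z (t / 2) u)
        (fun u _ v _ h => mul_left_cancel₀ hR' (add_left_cancel h)) fun _ _ => hR'
    · simp only [Function.iterate_zero, id_eq]
      rw [(scale_deriv z (t / 2) 0).deriv, Complex.norm_real, Real.norm_eq_abs, abs_of_pos ht2]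
      simp
    · rw [← vol_ball z ht2.le]
      simpa using measure_mono (μ := volume) (scale_maps z ht2).image_subset
  | succ m ih =>
    intro z hy hfar
    obtain ⟨F, ε, κ, hF, hF0, hg, hmaps, hder, hvol, hev, hsum⟩ :=
      ih (fq e c z) hy fun j hj => hfar (j + 1) (by omega)
    obtain ⟨φ, ε0, κ0, hφ, hφm, hφ0, hφd, hε0, hne, hvol0, hev0⟩ :=
      event ht hθ (by linarith) hK hLD (hfar 0 (by omega)) hF hF0 hg (by rwa [hF0])
        (by rwa [hF0])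
    obtain ⟨G, hG, hG0, hGF⟩ := exists_root (e := e) (F := fun u => F (φ u)) (hF.comp hφ.diff hφm)
      hne (z := z) (by simp only [hφ0, hF0])
    have heq : ∀ u ∈ ball (0 : ℂ) 1, (fq e c)^[m + 1] (G u) = (fq e c)^[m] (F (φ u)) :=
      fun u hu => by rw [Function.iterate_succ_apply, hGF u hu]
    have h01 : (0 : ℂ) ∈ ball (0 : ℂ) 1 := mem_ball_self one_pos
    have hcomp := hg.comp hφ isOpen_ball isOpen_ball hφm
    have hdeq : ∀ u ∈ ball (0 : ℂ) 1, deriv (fun u => (fq e c)^[m + 1] (G u)) u =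
        deriv (fun u => (fq e c)^[m] (F (φ u))) u := fun u hu =>
      Filter.EventuallyEq.deriv_eq (by
        filter_upwards [isOpen_ball.mem_nhds hu] with v hv using heq v hv)
    have hg' : Univ (fun u => (fq e c)^[m + 1] (G u)) (ball 0 1) :=
      ⟨hcomp.diff.congr heq, fun u hu v hv h => hcomp.inj hu hv (by
        simp only [← heq u hu, ← heq v hv]
        exact h), fun u hu => by rw [hdeq u hu]; exact hcomp.ne u hu⟩
    have hsum0 : 0 ≤ ∑ j ∈ Finset.range m, ε j ^ 2 := Finset.sum_nonneg fun _ _ => sq_nonneg _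
    have hder' : t / 2 * (1 - 5 * (∑ j ∈ Finset.range m, ε j ^ 2 + ε0 ^ 2)) ≤
        ‖deriv (fun u => (fq e c)^[m + 1] (G u)) 0‖ := by
      have h1 := ((hg.hasDerivAt isOpen_ball (hφm h01)).comp 0 (hφ.hasDerivAt isOpen_ball h01)).deriv
      rw [hdeq 0 h01]
      refine le_trans ?_ (congrArg norm h1).ge
      rw [norm_mul, hφ0]
      refine le_trans ?_ (mul_le_mul hder hφd (by linarith) (norm_nonneg _))
      linarith only [mul_nonneg ht.le (mul_nonneg hsum0 (sq_nonneg ε0))]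
    have hvol' : volume ((fun u => (fq e c)^[m + 1] (G u)) '' ball 0 1) +
        ENNReal.ofReal (∑ j ∈ Finset.range m, π * (κ j * t / 8) ^ 2 + π * (κ0 * t / 8) ^ 2) ≤
          ENNReal.ofReal (π * (t / 2) ^ 2) := by
      rw [image_congr heq, ENNReal.ofReal_add (by positivity) (by positivity), add_comm
        (ENNReal.ofReal _), ← add_assoc]
      exact (add_le_add hvol0 le_rfl).trans hvol
    set ε' : ℕ → ℝ := fun j => Nat.casesOn j ε0 ε with hε'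
    set κ' : ℕ → ℝ := fun j => Nat.casesOn j κ0 κ with hκ'
    have hev' : ∀ j < m + 1, ε' j ^ 2 * (K * θ ^ (e + 2)) ≤ 16 * (e + 1 : ℕ) * (κ' j *
        (θ ^ 2 * t ^ 2 * ‖Pd e c ((fq e c)^[j] z) (m + 1 - j)‖⁻¹ / ‖(fq e c)^[j] z‖ ^ 2)) := by
      intro j hj
      cases j with
      | zero => exact hev0
      | succ j =>
        rw [Nat.add_sub_add_right]
        exact hev j (by omega)
    refine ⟨G, ε', κ', hG, hG0, hg', fun u hu => ?_, ?_, ?_, hev', ?_⟩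
    · simp only [heq u hu]
      exact hmaps (hφm hu)
    · rw [Finset.sum_range_succ']
      exact hder'
    · rw [Finset.sum_range_succ']
      exact hvol'
    · obtain ⟨h, hb, hh⟩ := branch_of ht hG hg' (le_trans (by
        linarith only [mul_le_mul_of_nonneg_left hsum ht.le, mul_le_mul_of_nonneg_left hε0 ht.le])
        hder') (by rwa [hG0])
      rw [hG0] at hh
      have hp := packing he ht hθ hθ1 hb hy (by rwa [hh])
      rw [hh] at hp
      have hκ : ∑ j ∈ Finset.range (m + 1), κ' j ^ 2 ≤ 16 := by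
        have h1 := (ENNReal.ofReal_le_ofReal_iff (by positivity)).mp (le_add_self.trans hvol')
        have h2 : ∑ j ∈ Finset.range m, π * (κ j * t / 8) ^ 2 + π * (κ0 * t / 8) ^ 2 =
            π * t ^ 2 / 64 * ∑ j ∈ Finset.range (m + 1), κ' j ^ 2 := by
          rw [Finset.sum_range_succ', mul_add, Finset.mul_sum]
          congr 1
          · exact Finset.sum_congr rfl fun j _ => by simp only [hκ']; ring
          · simp only [hκ', Nat.rec_zero]
            ring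
        rw [h2] at h1
        refine le_of_mul_le_mul_left (h1.trans_eq ?_) (show 0 < π * t ^ 2 / 64 by positivity)
        ring
      set X : ℕ → ℝ := fun j =>
        θ ^ 2 * t ^ 2 * ‖Pd e c ((fq e c)^[j] z) (m + 1 - j)‖⁻¹ / ‖(fq e c)^[j] z‖ ^ 2 with hX
      have hd1 : (1 : ℝ) ≤ (e + 1 : ℕ) := by exact_mod_cast Nat.le_add_left 1 e
      have h3 : (∑ j ∈ Finset.range (m + 1), ε' j ^ 2) * (K * θ ^ (e + 2)) ≤
          16 * (e + 1 : ℕ) * (45 / 2 * ∑ j ∈ Finset.range (m + 1), κ' j ^ 2 +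
            1 / 90 * ∑ j ∈ Finset.range (m + 1), X j ^ 2) := by
        rw [Finset.sum_mul, Finset.mul_sum, Finset.mul_sum, ← Finset.sum_add_distrib,
          Finset.mul_sum]
        refine Finset.sum_le_sum fun j hj => (hev' j (Finset.mem_range.mp hj)).trans ?_
        change 16 * _ * (κ' j * X j) ≤ _
        gcongr
        linarith only [sq_nonneg (45 * κ' j - X j)]
      have h4 : 0 ≤ ∑ j ∈ Finset.range (m + 1), ε' j ^ 2 := Finset.sum_nonneg fun _ _ => sq_nonneg _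
      have h5 : (∑ j ∈ Finset.range (m + 1), ε' j ^ 2) * (10 ^ 6 * (e + 1 : ℕ)) ≤
          16 * (e + 1 : ℕ) * (45 / 2 * 16 + 1 / 90 * 32768) :=
        le_trans (by gcongr) (h3.trans (by gcongr))
      refine le_of_mul_le_mul_right ?_ (zero_lt_one.trans_le hd1)
      linarith only [h5, hd1]

/-- Univalent pull-back of the disc of radius `t / 32`. -/
theorem lemmaU (he : 1 ≤ e) {t θ K : ℝ} (ht : 0 < t) (hθ : 0 < θ) (hθ1 : θ ≤ 1 / 512)
    (hK : 10 ^ 6 * (e + 1 : ℕ) ≤ K * θ ^ (e + 2)) (hLD : LDs e c t K) {m : ℕ} {z : ℂ}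
    (hy : ‖(fq e c)^[m] z‖ ≤ t / 2048) (hfar : ∀ j < m, θ * t ≤ ‖(fq e c)^[j] z‖) :
    ∃ h, Br e c m h (ball 0 (t / 32)) ∧ h ((fq e c)^[m] z) = z := by
  obtain ⟨F, ε, κ, hF, hF0, hg, -, hder, -, -, hsum⟩ := lemmaU_inv he ht hθ hθ1 hK hLD m z hy hfar
  obtain ⟨h, hb, hh⟩ := branch_of ht hF hg (le_trans (by
    linarith only [mul_le_mul_of_nonneg_left hsum ht.le, ht]) hder) (by rwa [hF0])
  exact ⟨h, hb, by rwa [hF0] at hh⟩

end Pool.Agent.MP_28f8a1_an
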