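import Mathlib

/-! Area integrals in the plane: polar coordinates, change of variables, mean values. -/

set_option autoImplicit false

namespace Pool.Agent.MP_28f8a1_an

open MeasureTheory Metric Set Real
open scoped ENNReal

/-- Area integral of the positive part of a real function over a set. -/
noncomputable def LI (S : Set ℂ) (u : ℂ → ℝ) : ℝ≥0∞ := ∫⁻ z in S, ENNReal.ofReal (u z)

theorem LI_mono_set {S T : Set ℂ} (h : S ⊆ T) (u : ℂ → ℝ) : LI S u ≤ LI T u :=
  lintegral_mono_set h

theorem LI_mono {S : Set ℂ} (hS : MeasurableSet S) {u v : ℂ → ℝ} (h : ∀ z ∈ S, u z ≤ v z) :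
    LI S u ≤ LI S v :=
  setLIntegral_mono' hS fun z hz => ENNReal.ofReal_le_ofReal (h z hz)

theorem LI_mono_ae {S : Set ℂ} (hS : MeasurableSet S) {B : Set ℂ} (hB : volume B = 0)
    {u v : ℂ → ℝ} (h : ∀ z ∈ S, z ∉ B → u z ≤ v z) : LI S u ≤ LI S v := by
  refine lintegral_mono_ae ?_
  rw [ae_restrict_iff' hS]
  have : ∀ᵐ z : ℂ, z ∉ B := compl_mem_ae_iff.mpr hB
  filter_upwards [this] with z hz hzS using ENNReal.ofReal_le_ofReal (h z hzS hz)

theorem LI_add_le (S : Set ℂ) {u : ℂ → ℝ} (hu : Measurable u) (v : ℂ → ℝ) :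
    LI S (fun z => u z + v z) ≤ LI S u + LI S v := by
  unfold LI
  rw [← lintegral_add_left hu.ennreal_ofReal]
  exact lintegral_mono fun z => ENNReal.ofReal_add_le

theorem LI_add {S : Set ℂ} (hS : MeasurableSet S) {u v : ℂ → ℝ} (hu : Measurable u)
    (hu0 : ∀ z ∈ S, 0 ≤ u z) (hv0 : ∀ z ∈ S, 0 ≤ v z) :
    LI S (fun z => u z + v z) = LI S u + LI S v := by
  unfold LI
  rw [← lintegral_add_left hu.ennreal_ofReal]
  exact setLIntegral_congr_fun hS fun z hz => ENNReal.ofReal_add (hu0 z hz) (hv0 z hz)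

theorem LI_const_mul (S : Set ℂ) {a : ℝ} (ha : 0 ≤ a) (u : ℂ → ℝ) :
    LI S (fun z => a * u z) = ENNReal.ofReal a * LI S u := by
  unfold LI
  rw [← lintegral_const_mul' _ _ ENNReal.ofReal_ne_top]
  exact lintegral_congr fun z => ENNReal.ofReal_mul ha

theorem LI_const (S : Set ℂ) (a : ℝ) : LI S (fun _ => a) = ENNReal.ofReal a * volume S := by
  simp [LI]

theorem vol_ball (x : ℂ) {R : ℝ} (hR : 0 ≤ R) : volume (ball x R) = ENNReal.ofReal (π * R ^ 2) := by
  rw [Complex.volume_ball, ← ENNReal.ofReal_pow hR, mul_comm, ENNReal.ofReal_mul pi_pos.le]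
  congr 1
  rw [← NNReal.coe_real_pi, ENNReal.ofReal_coe_nnreal]

theorem LI_ball_const (x : ℂ) {R a : ℝ} (hR : 0 ≤ R) (ha : 0 ≤ a) :
    LI (ball x R) (fun _ => a) = ENNReal.ofReal (a * (π * R ^ 2)) := by
  rw [LI_const, vol_ball x hR, ENNReal.ofReal_mul ha]

theorem LI_union_le (S T : Set ℂ) (u : ℂ → ℝ) : LI (S ∪ T) u ≤ LI S u + LI T u :=
  lintegral_union_le _ _ _

theorem LI_sum_le (S : Set ℂ) {ι : Type*} (s : Finset ι) {u : ι → ℂ → ℝ}
    (hu : ∀ i ∈ s, Measurable (u i)) :
    LI S (fun z => ∑ i ∈ s, u i z) ≤ ∑ i ∈ s, LI S (u i) := by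
  classical
  induction s using Finset.induction_on with
  | empty => simp [LI]
  | insert a s ha ih =>
    simp only [Finset.sum_insert ha]
    refine (LI_add_le S (hu a (Finset.mem_insert_self _ _)) _).trans ?_
    gcongr
    exact ih fun i hi => hu i (Finset.mem_insert_of_mem hi)

theorem LI_neg (S : Set ℂ) (u : ℂ → ℝ) : LI (-S) (fun z => u (-z)) = LI S u := by
  unfold LI
  have h := (Measure.measurePreserving_neg (volume : Measure ℂ)).setLIntegral_comp_preimage_emb
    (MeasurableEquiv.neg ℂ).measurableEmbedding (fun z => ENNReal.ofReal (u z)) S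
  rw [← h]
  rfl

theorem polar (F : ℂ → ℝ≥0∞) (hF : Measurable F) (x : ℂ) :
    ∫⁻ z, F z = ∫⁻ r in Ioi (0 : ℝ), ENNReal.ofReal r *
      ∫⁻ θ in Ioo (-π) π, F (circleMap x r θ) := by
  rw [← lintegral_add_left_eq_self F x, ← Complex.lintegral_comp_polarCoord_symm,
    polarCoord_target, Measure.volume_eq_prod, ← Measure.prod_restrict, lintegral_prod]
  · refine lintegral_congr fun r => ?_
    rw [← lintegral_const_mul' _ _ ENNReal.ofReal_ne_top]
    refine lintegral_congr fun θ => ?_
    simp only [smul_eq_mul, Complex.polarCoord_symm_apply, circleMap, Complex.exp_mul_I,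
      Complex.ofReal_cos, Complex.ofReal_sin]
  · refine Measurable.aemeasurable ?_
    have : Measurable fun p : ℝ × ℝ => x + Complex.polarCoord.symm p := by
      simp only [Complex.polarCoord_symm_apply]
      fun_prop
    exact measurable_fst.ennreal_ofReal.mul (hF.comp this)

/-- Area integral over an annulus-like set in polar coordinates. -/
theorem LI_polar {u : ℂ → ℝ} (hu : Measurable u) (x : ℂ) {A : Set ℝ} (hA : MeasurableSet A)
    (hA0 : A ⊆ Ioi 0) :
    LI {z | ‖z - x‖ ∈ A} u = ∫⁻ r in A, ENNReal.ofReal r *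
      ∫⁻ θ in Ioo (-π) π, ENNReal.ofReal (u (circleMap x r θ)) := by
  have hm : MeasurableSet {z : ℂ | ‖z - x‖ ∈ A} :=
    (show Measurable fun z : ℂ => ‖z - x‖ by fun_prop) hA
  unfold LI
  rw [← lintegral_indicator hm, polar _ (hu.ennreal_ofReal.indicator hm) x]
  have : A = A ∩ Ioi 0 := (inter_eq_left.mpr hA0).symm
  conv_rhs => rw [this, ← Measure.restrict_restrict hA, ← lintegral_indicator hA]
  refine setLIntegral_congr_fun measurableSet_Ioi fun r hr => ?_
  have hn : ∀ θ, ‖circleMap x r θ - x‖ = r := fun θ => by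
    rw [circleMap_sub_center, norm_circleMap_zero, abs_of_pos hr]
  by_cases h : r ∈ A
  · simp only [indicator_of_mem h]
    congr 1
    refine lintegral_congr fun θ => indicator_of_mem ?_ _
    simpa only [mem_ofPred_eq, hn] using h
  · simp only [indicator_of_notMem h]
    rw [lintegral_congr (g := fun _ => 0), lintegral_zero, mul_zero]
    intro θ
    refine indicator_of_notMem ?_ _
    simpa only [mem_ofPred_eq, hn] using h

theorem LI_radial {G : ℝ → ℝ} (hG : Measurable G) (x : ℂ) {A : Set ℝ} (hA : MeasurableSet A)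
    (hA0 : A ⊆ Ioi 0) :
    LI {z | ‖z - x‖ ∈ A} (fun z => G ‖z - x‖) = ∫⁻ r in A, ENNReal.ofReal (2 * π * (r * G r)) := by
  rw [LI_polar (by fun_prop) x hA hA0]
  refine setLIntegral_congr_fun hA fun r hr => ?_
  have hr0 : 0 < r := hA0 hr
  have hn : ∀ θ, ‖circleMap x r θ - x‖ = r := fun θ => by
    rw [circleMap_sub_center, norm_circleMap_zero, abs_of_pos hr0]
  simp only [hn, lintegral_const, MeasurableSet.univ, Measure.restrict_apply, univ_inter,
    Real.volume_Ioo]
  rw [← ENNReal.ofReal_mul' (by linarith [pi_pos]), ← ENNReal.ofReal_mul hr0.le]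
  congr 1
  ring

theorem LI_punct (x : ℂ) (R : ℝ) (u : ℂ → ℝ) :
    LI (ball x R) u = LI {z | ‖z - x‖ ∈ Ioo 0 R} u := by
  unfold LI
  refine setLIntegral_congr ?_
  have : {z : ℂ | ‖z - x‖ ∈ Ioo 0 R} = ball x R \ {x} := by
    ext z
    simp [sub_eq_zero, dist_eq_norm, and_comm]
  rw [this]
  exact (sdiff_null_ae_eq_self (measure_singleton x)).symm

/-- The kernel `1 / |z - p|`. -/
noncomputable def gk (p z : ℂ) : ℝ := ‖z - p‖⁻¹

theorem gk_nonneg (p z : ℂ) : 0 ≤ gk p z := inv_nonneg.mpr (norm_nonneg _)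

@[fun_prop]
theorem measurable_gk (p : ℂ) : Measurable (gk p) := by
  unfold gk
  fun_prop

theorem LI_gk_self (p : ℂ) (R : ℝ) : LI (ball p R) (gk p) = ENNReal.ofReal (2 * π * R) := by
  rw [LI_punct]
  have := LI_radial (G := fun r => r⁻¹) (by fun_prop) p (A := Ioo 0 R) measurableSet_Ioo
    Ioo_subset_Ioi_self
  unfold gk
  rw [this, setLIntegral_congr_fun (g := fun _ => ENNReal.ofReal (2 * π)) measurableSet_Ioo]
  · simp only [lintegral_const, MeasurableSet.univ, Measure.restrict_apply, univ_inter,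
      Real.volume_Ioo, sub_zero]
    rw [← ENNReal.ofReal_mul (by positivity)]
  · intro r hr
    simp only
    rw [mul_inv_cancel₀ hr.1.ne', mul_one]

/-- The integral of the kernel over a disc is largest when the pole is the centre. -/
theorem LI_gk_le (p x : ℂ) (R : ℝ) : LI (ball x R) (gk p) ≤ ENNReal.ofReal (2 * π * R) := by
  rcases le_or_gt R 0 with hR | hR
  · simp [LI, ball_eq_empty.mpr hR]
  rw [← LI_gk_self p R]
  have hvol : volume (ball x R \ ball p R) = volume (ball p R \ ball x R) := by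
    have h1 := measure_inter_add_sdiff (μ := volume) (ball x R) (measurableSet_ball (x := p) (ε := R))
    have h2 := measure_inter_add_sdiff (μ := volume) (ball p R) (measurableSet_ball (x := x) (ε := R))
    rw [vol_ball x hR.le, ← vol_ball p hR.le, ← h2, inter_comm] at h1
    refine (ENNReal.add_right_inj ?_).mp h1
    exact ((measure_mono inter_subset_left).trans_lt measure_ball_lt_top).ne
  unfold LI
  rw [← lintegral_inter_add_sdiff _ (ball x R) (measurableSet_ball (x := p) (ε := R)),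
    ← lintegral_inter_add_sdiff _ (ball p R) (measurableSet_ball (x := x) (ε := R)), inter_comm]
  refine add_le_add le_rfl ?_
  calc LI (ball x R \ ball p R) (gk p) ≤ LI (ball x R \ ball p R) (fun _ => R⁻¹) := by
        refine LI_mono (measurableSet_ball.diff measurableSet_ball) fun z hz => ?_
        have : R ≤ ‖z - p‖ := by simpa [dist_eq_norm] using hz.2
        exact inv_anti₀ hR this
    _ = LI (ball p R \ ball x R) (fun _ => R⁻¹) := by rw [LI_const, LI_const, hvol]
    _ ≤ LI (ball p R \ ball x R) (gk p) := by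
        refine LI_mono_ae (measurableSet_ball.diff measurableSet_ball) (measure_singleton p)
          fun z hz hzp => ?_
        have : ‖z - p‖ < R := by simpa [dist_eq_norm] using hz.1
        exact inv_anti₀ (norm_pos_iff.mpr (sub_ne_zero.mpr hzp)) this.le

theorem LI_cube (p : ℂ) {b : ℝ} (hb : 0 < b) :
    LI {z | b ≤ ‖z - p‖} (fun z => (‖z - p‖ ^ 3)⁻¹) ≤ ENNReal.ofReal (2 * π / b) := by
  have := LI_radial (G := fun r => (r ^ 3)⁻¹) (by fun_prop) p (A := Ici b) measurableSet_Ici
    (fun r hr => lt_of_lt_of_le hb hr)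
  refine le_of_eq (this.trans ?_)
  rw [setLIntegral_congr Ioi_ae_eq_Ici.symm,
    setLIntegral_congr_fun (g := fun r => ENNReal.ofReal (2 * π * r ^ (-2 : ℝ))) measurableSet_Ioi,
    ← ofReal_integral_eq_lintegral_ofReal, integral_const_mul,
    integral_Ioi_rpow_of_lt (by norm_num) hb]
  · congr 1
    norm_num
    rw [Real.rpow_neg_one, div_eq_mul_inv]
  · exact (integrableOn_Ioi_rpow_of_lt (by norm_num) hb).const_mul _
  · filter_upwards [ae_restrict_mem measurableSet_Ioi] with r hr
    have : 0 < r := hb.trans hr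
    positivity
  · intro r hr
    have : 0 < r := hb.trans hr
    simp only
    congr 2
    rw [Real.rpow_neg this.le, Real.rpow_two]
    field_simp

theorem det_smul_one (c : ℂ) : (c • (1 : ℂ →L[ℝ] ℂ)).det = ‖c‖ ^ 2 := by
  have : ((c • (1 : ℂ →L[ℝ] ℂ) : ℂ →L[ℝ] ℂ) : ℂ →ₗ[ℝ] ℂ) = Algebra.lmul ℝ ℂ c := by
    ext
    simp
  rw [ContinuousLinearMap.det, this, ← Algebra.norm_apply, Algebra.norm_complex_apply,
    Complex.normSq_eq_norm_sq]

/-- Change of variables under an injective holomorphic map. -/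
theorem LI_image {S : Set ℂ} (hS : MeasurableSet S) {h h' : ℂ → ℂ}
    (hd : ∀ z ∈ S, HasDerivAt h (h' z) z) (hi : InjOn h S) (u : ℂ → ℝ) :
    LI (h '' S) u = LI S (fun z => ‖h' z‖ ^ 2 * u (h z)) := by
  unfold LI
  rw [lintegral_image_eq_lintegral_abs_det_fderiv_mul (volume : Measure ℂ) hS
    (f' := fun z => h' z • (1 : ℂ →L[ℝ] ℂ))
    (fun z hz => (hd z hz).complexToReal_fderiv.hasFDerivWithinAt) hi]
  refine lintegral_congr fun z => ?_
  rw [det_smul_one, abs_of_nonneg (by positivity), ENNReal.ofReal_mul (by positivity)]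

theorem circ_lower {Φ : ℂ → ℂ} {x : ℂ} {r : ℝ} (hr : 0 < r) (hΦ : DiffContOnCl ℂ Φ (ball x r))
    {u : ℂ → ℝ} (hu : ∀ z, ‖z - x‖ = r → (Φ z).re ≤ u z) :
    ENNReal.ofReal (2 * π * (Φ x).re) ≤
      ∫⁻ θ in Ioo (-π) π, ENNReal.ofReal (u (circleMap x r θ)) := by
  have hn : ∀ θ, ‖circleMap x r θ - x‖ = r := fun θ => by
    rw [circleMap_sub_center, norm_circleMap_zero, abs_of_pos hr]
  have hc : Continuous fun θ : ℝ => Φ (circleMap x r θ) := by
    refine hΦ.continuousOn.comp_continuous (continuous_circleMap x r) fun θ => ?_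
    rw [closure_ball x hr.ne', mem_closedBall, dist_eq_norm, hn]
  have hav : circleAverage Φ x r = Φ x := DiffContOnCl.circleAverage (by rwa [abs_of_pos hr])
  rw [circleAverage_eq_integral_add (-π), intervalIntegral.integral_comp_add_right
    (fun θ => Φ (circleMap x r θ))] at hav
  have h2 : (2 * π * (Φ x).re) = ∫ θ in (-π)..π, (Φ (circleMap x r θ)).re := by
    have h3 := Complex.reCLM.intervalIntegral_comp_comm (hc.intervalIntegrable (μ := volume) (-π) π)
    simp only [Complex.reCLM_apply] at h3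
    rw [h3, ← hav, zero_add, show 2 * π + -π = π by ring, Complex.smul_re, smul_eq_mul,
      mul_inv_cancel_left₀ (by positivity)]
  have hc2 : Continuous fun θ : ℝ => (Φ (circleMap x r θ)).re := Complex.continuous_re.comp hc
  have hc3 : Continuous fun θ : ℝ => max (Φ (circleMap x r θ)).re 0 := hc2.max continuous_const
  have hpi : -π ≤ π := by linarith [pi_pos]
  calc ENNReal.ofReal (2 * π * (Φ x).re)
      ≤ ENNReal.ofReal (∫ θ in (-π)..π, max (Φ (circleMap x r θ)).re 0) := by
        rw [h2]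
        exact ENNReal.ofReal_le_ofReal (intervalIntegral.integral_mono_on hpi
          (hc2.intervalIntegrable _ _) (hc3.intervalIntegrable _ _) fun θ _ => le_max_left _ _)
    _ = ∫⁻ θ in Ioo (-π) π, ENNReal.ofReal (max (Φ (circleMap x r θ)).re 0) := by
        rw [intervalIntegral.integral_of_le hpi, integral_Ioc_eq_integral_Ioo,
          ofReal_integral_eq_lintegral_ofReal]
        · exact (hc3.integrableOn_Icc (a := -π) (b := π)).mono_set Ioo_subset_Icc_self
        · exact Filter.Eventually.of_forall fun θ => le_max_right _ _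
    _ ≤ _ := by
        refine lintegral_mono fun θ => ?_
        rw [ENNReal.ofReal_max, ENNReal.ofReal_zero, max_eq_left zero_le]
        exact ENNReal.ofReal_le_ofReal (hu _ (hn θ))

/-- Area mean value inequality. -/
theorem LI_mean {Ψ : ℂ → ℂ} {x : ℂ} {R : ℝ} (hR : 0 < R) (hΨ : DifferentiableOn ℂ Ψ (ball x R))
    {u : ℂ → ℝ} (hu : Measurable u) (h : ∀ z ∈ ball x R, z ≠ x → ‖Ψ z‖ ≤ u z) :
    ENNReal.ofReal (π * R ^ 2 * ‖Ψ x‖) ≤ LI (ball x R) u := by
  obtain ⟨e, he1, he⟩ : ∃ e : ℂ, ‖e‖ = 1 ∧ e * Ψ x = ‖Ψ x‖ := by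
    by_cases h0 : Ψ x = 0
    · exact ⟨1, by simp, by simp [h0]⟩
    · refine ⟨(‖Ψ x‖ : ℂ) / Ψ x, ?_, by field_simp⟩
      rw [norm_div, Complex.norm_real, norm_norm, div_self (norm_ne_zero_iff.mpr h0)]
  have h1 : ENNReal.ofReal (π * R ^ 2 * ‖Ψ x‖) = LI (ball x R) (fun _ => ‖Ψ x‖) := by
    rw [LI_ball_const x hR.le (norm_nonneg _), mul_comm]
  rw [h1, LI_punct, LI_punct, LI_polar hu x measurableSet_Ioo Ioo_subset_Ioi_self,
    LI_polar measurable_const x measurableSet_Ioo Ioo_subset_Ioi_self]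
  refine setLIntegral_mono' measurableSet_Ioo fun r hr => ?_
  refine mul_le_mul_right ?_ _
  have hd : DiffContOnCl ℂ (fun z => e * Ψ z) (ball x r) := by
    refine DifferentiableOn.diffContOnCl ?_
    rw [closure_ball x hr.1.ne']
    exact (hΨ.mono (closedBall_subset_ball hr.2)).const_mul e
  refine le_trans (le_of_eq ?_) (circ_lower hr.1 hd (u := u) fun z hz => ?_)
  · simp only [lintegral_const, MeasurableSet.univ, Measure.restrict_apply, univ_inter,
      Real.volume_Ioo, he, Complex.ofReal_re]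
    rw [← ENNReal.ofReal_mul (norm_nonneg _)]
    congr 1
    ring
  · refine (Complex.re_le_norm _).trans ?_
    rw [norm_mul, he1, one_mul]
    refine h z (by simpa [dist_eq_norm, hz] using hr.2) ?_
    rintro rfl
    simp at hz
    exact hr.1.ne hz

/-- A holomorphic logarithm on a disc. -/
theorem exists_log {F : ℂ → ℂ} {x : ℂ} {R : ℝ} (hF : DifferentiableOn ℂ F (ball x R))
    (h0 : ∀ z ∈ ball x R, F z ≠ 0) :
    ∃ L : ℂ → ℂ, DifferentiableOn ℂ L (ball x R) ∧ ∀ z ∈ ball x R, Complex.exp (L z) = F z := by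
  rcases le_or_gt R 0 with hR | hR
  · exact ⟨0, differentiableOn_const _, by simp [ball_eq_empty.mpr hR]⟩
  have hq : DifferentiableOn ℂ (fun z => deriv F z / F z) (ball x R) :=
    (hF.deriv isOpen_ball).div hF h0
  obtain ⟨L, hLx, hL⟩ := hq.isExactOn_ball.with_val_at x (Complex.log (F x))
  refine ⟨L, fun z hz => (hL z hz).differentiableAt.differentiableWithinAt, fun z hz => ?_⟩
  have hd : ∀ z ∈ ball x R, HasDerivAt (fun z => F z * Complex.exp (-L z)) 0 z := by
    intro z hz
    have h1 := (hF.hasDerivAt (isOpen_ball.mem_nhds hz)).mul (hL z hz).neg.cexp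
    refine h1.congr_deriv ?_
    have := h0 z hz
    field_simp
    ring
  have hc := isOpen_ball.is_const_of_deriv_eq_zero (convex_ball x R).isPreconnected
    (fun z hz => (hd z hz).differentiableAt.differentiableWithinAt)
    (fun z hz => (hd z hz).deriv) hz (mem_ball_self hR)
  simp only [hLx, Complex.exp_neg, Complex.exp_log (h0 x (mem_ball_self hR))] at hc
  rw [mul_inv_cancel₀ (h0 x (mem_ball_self hR))] at hc
  have := Complex.exp_ne_zero (L z)
  field_simp at hc
  exact hc.symm

end Pool.Agent.MP_28f8a1_an
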