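import Pool.Agent.MP_28f8a1_an.Branch

/-! The push-forward operator on quadratic differentials and its `L¹` contraction. -/

set_option autoImplicit false

namespace Pool.Agent.MP_28f8a1_an

open MeasureTheory Metric Set Real Filter Topology
open scoped ENNReal

variable {e : ℕ} {c : ℂ}

/-- A primitive root of unity of order `e + 1`. -/
noncomputable def om (e : ℕ) : ℂ := Complex.exp (2 * π * Complex.I / (e + 1 : ℕ))

theorem om_prim (e : ℕ) : IsPrimitiveRoot (om e) (e + 1) :=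
  Complex.isPrimitiveRoot_exp (e + 1) (Nat.succ_ne_zero e)

theorem om_ne (e : ℕ) : om e ≠ 0 := Complex.exp_ne_zero _

/-- The preimages of a point. -/
noncomputable def rt (e : ℕ) (c : ℂ) (k : ℕ) (y : ℂ) : ℂ :=
  om e ^ k * Complex.exp (Complex.log (y - c) / (e + 1 : ℕ))

/-- Contribution of one preimage. -/
noncomputable def tm (e : ℕ) (φ : ℂ → ℂ) (w : ℂ) : ℂ := φ w / ((e + 1 : ℕ) * w ^ e) ^ 2

/-- The push-forward operator. -/
noncomputable def Tr (e : ℕ) (c : ℂ) (φ : ℂ → ℂ) (y : ℂ) : ℂ :=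
  ∑ k ∈ Finset.range (e + 1), tm e φ (rt e c k y)

/-- The loss in the triangle inequality. -/
noncomputable def loss (e : ℕ) (c : ℂ) (φ : ℂ → ℂ) (y : ℂ) : ℝ :=
  ∑ k ∈ Finset.range (e + 1), ‖tm e φ (rt e c k y)‖ - ‖Tr e c φ y‖

theorem rt_ne (k : ℕ) (y : ℂ) : rt e c k y ≠ 0 :=
  mul_ne_zero (pow_ne_zero _ (om_ne e)) (Complex.exp_ne_zero _)

theorem rt_pow (k : ℕ) {y : ℂ} (hy : y ≠ c) : rt e c k y ^ (e + 1) = y - c := by
  have hd : ((e + 1 : ℕ) : ℂ) ≠ 0 := Nat.cast_ne_zero.mpr (Nat.succ_ne_zero e)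
  rw [rt, mul_pow, ← pow_mul, mul_comm k, pow_mul, (om_prim e).pow_eq_one, one_pow, one_mul,
    ← Complex.exp_nat_mul, mul_div_cancel₀ _ hd, Complex.exp_log (sub_ne_zero.mpr hy)]

theorem fq_rt (k : ℕ) {y : ℂ} (hy : y ≠ c) : fq e c (rt e c k y) = y := by
  rw [fq, rt_pow k hy, sub_add_cancel]

theorem exists_rt {w : ℂ} (hw : w ≠ 0) : ∃ i < e + 1, rt e c i (fq e c w) = w := by
  have hy : fq e c w ≠ c := by simpa [fq] using hw
  have h1 := rt_pow (e := e) 0 hy
  have h2 := rt_ne (e := e) (c := c) 0 (fq e c w)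
  obtain ⟨i, hi, h3⟩ := (om_prim e).eq_pow_of_pow_eq_one (ξ := w / rt e c 0 (fq e c w)) (by
    rw [div_pow, h1, fq, add_sub_cancel_right, div_self (pow_ne_zero _ hw)])
  refine ⟨i, hi, ?_⟩
  rw [eq_div_iff h2] at h3
  refine Eq.trans ?_ h3
  simp [rt]

theorem rt_inj {i j : ℕ} (hi : i < e + 1) (hj : j < e + 1) {y : ℂ} (h : rt e c i y = rt e c j y) :
    i = j :=
  (om_prim e).pow_inj hi hj (mul_right_cancel₀ (Complex.exp_ne_zero _) h)

theorem loss_nonneg (φ : ℂ → ℂ) (y : ℂ) : 0 ≤ loss e c φ y :=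
  sub_nonneg.mpr (norm_sum_le _ _)

theorem measurable_loss {φ : ℂ → ℂ} (hφ : Measurable φ) : Measurable (loss e c φ) := by
  unfold loss Tr tm rt
  fun_prop

theorem loss_one (φ : ℂ → ℂ) {w : ℂ} (hw : w ≠ 0) : ∃ S : ℝ,
    ‖Tr e c φ (fq e c w) - tm e φ w‖ ≤ S ∧
      ‖tm e φ w‖ + S = ‖Tr e c φ (fq e c w)‖ + loss e c φ (fq e c w) := by
  obtain ⟨i, hi, h⟩ := exists_rt (e := e) (c := c) hw
  have hi' := Finset.mem_range.mpr hi
  refine ⟨∑ k ∈ (Finset.range (e + 1)).erase i, ‖tm e φ (rt e c k (fq e c w))‖, ?_, ?_⟩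
  · rw [Tr, ← Finset.add_sum_erase _ _ hi', h, add_sub_cancel_left]
    exact norm_sum_le _ _
  · rw [loss, ← Finset.add_sum_erase _ _ hi', h]
    ring

theorem loss_two (φ : ℂ → ℂ) {w w' : ℂ} (hw : w ≠ 0) (hw' : w' ≠ 0) (hne : w ≠ w')
    (hf : fq e c w' = fq e c w) :
    ‖tm e φ w‖ + ‖tm e φ w'‖ - ‖tm e φ w + tm e φ w'‖ ≤ loss e c φ (fq e c w) := by
  obtain ⟨i, hi, h⟩ := exists_rt (e := e) (c := c) hw
  obtain ⟨j, hj, h'⟩ := exists_rt (e := e) (c := c) hw'
  rw [hf] at h'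
  have hij : j ≠ i := by
    rintro rfl
    exact hne (h.symm.trans h')
  have hi' := Finset.mem_range.mpr hi
  have hj' := Finset.mem_erase.mpr ⟨hij, Finset.mem_range.mpr hj⟩
  rw [loss, Tr, ← Finset.add_sum_erase _ _ hi', ← Finset.add_sum_erase _ _ hi',
    ← Finset.add_sum_erase _ _ hj', ← Finset.add_sum_erase _ _ hj', h, h', ← add_assoc,
    ← add_assoc]
  have h1 := norm_add_le (tm e φ w + tm e φ w')
    (∑ k ∈ ((Finset.range (e + 1)).erase i).erase j, tm e φ (rt e c k (fq e c w)))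
  have h2 := norm_sum_le (((Finset.range (e + 1)).erase i).erase j)
    (fun k => tm e φ (rt e c k (fq e c w)))
  linarith

theorem slit_null (c : ℂ) : volume {y : ℂ | y - c ∉ Complex.slitPlane} = 0 := by
  have h1 : volume (LinearMap.ker Complex.imLm : Set ℂ) = 0 := by
    refine Measure.addHaar_submodule _ _ fun h => ?_
    have : Complex.I ∈ LinearMap.ker Complex.imLm := h ▸ Submodule.mem_top
    simp at this
  rw [← measure_preimage_add_right volume (-c)] at h1
  refine measure_mono_null (fun y hy => ?_) h1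
  have := (not_or.mp (mt Complex.mem_slitPlane_iff.mpr hy)).2
  simpa [← sub_eq_add_neg] using this

theorem rt_deriv (k : ℕ) {y : ℂ} (hy : y - c ∈ Complex.slitPlane) :
    HasDerivAt (rt e c k) (((e + 1 : ℕ) * rt e c k y ^ e)⁻¹) y := by
  have hd : ((e + 1 : ℕ) : ℂ) ≠ 0 := Nat.cast_ne_zero.mpr (Nat.succ_ne_zero e)
  have h0 := Complex.slitPlane_ne_zero hy
  have h := (((((hasDerivAt_id y).sub_const c).clog hy).div_const ((e + 1 : ℕ) : ℂ)).cexp).const_mul
    (om e ^ k)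
  refine h.congr_deriv ?_
  have h1 := rt_pow (e := e) k (sub_ne_zero.mp h0)
  have h2 := rt_ne (e := e) (c := c) k y
  simp only [id]
  rw [← mul_assoc, ← rt, ← h1]
  field_simp
  ring

/-- The transfer inequality. -/
theorem transfer {φ E : ℂ → ℂ} (hφ : Measurable φ) {B : Set ℂ} (hB : volume B = 0)
    (hid : ∀ y ∉ B, φ y = Tr e c φ y + E y) {X : Set ℂ} (hX : MeasurableSet X) :
    LI X (fun y => ‖φ y‖) + LI X (loss e c φ) ≤
      LI (fq e c ⁻¹' X) (fun y => ‖φ y‖) + LI X (fun y => ‖E y‖) := by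
  set X' := X ∩ {y | y - c ∈ Complex.slitPlane} with hX'
  have hXm : MeasurableSet X' := hX.inter
    ((Complex.isOpen_slitPlane.preimage (continuous_id.sub continuous_const)).measurableSet)
  have hne : ∀ y ∈ X', y ≠ c := fun y hy => sub_ne_zero.mp (Complex.slitPlane_ne_zero hy.2)
  have hXX : ∀ u, LI X u = LI X' u := fun u => by
    refine setLIntegral_congr ?_
    refine (inter_ae_eq_left_of_ae_eq_univ ?_).symm
    exact ae_eq_univ.mpr (slit_null c)
  have htm : ∀ k, Measurable fun y => ‖tm e φ (rt e c k y)‖ := fun k => by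
    unfold tm rt
    fun_prop
  rw [← LI_add hX hφ.norm (fun _ _ => norm_nonneg _) (fun _ _ => loss_nonneg _ _)]
  calc LI X (fun y => ‖φ y‖ + loss e c φ y)
      ≤ LI X (fun y => ∑ k ∈ Finset.range (e + 1), ‖tm e φ (rt e c k y)‖ + ‖E y‖) := by
        refine LI_mono_ae hX hB fun y _ hy => ?_
        have := norm_add_le (Tr e c φ y) (E y)
        rw [← hid y hy] at this
        unfold loss
        linarith
    _ ≤ LI X (fun y => ∑ k ∈ Finset.range (e + 1), ‖tm e φ (rt e c k y)‖) +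
          LI X (fun y => ‖E y‖) := LI_add_le _ (Finset.measurable_sum _ fun k _ => htm k) _
    _ ≤ _ := by
        refine add_le_add ?_ le_rfl
        rw [hXX]
        refine (LI_sum_le _ _ fun k _ => htm k).trans ?_
        have hinj : ∀ k, InjOn (rt e c k) X' := fun k u hu v hv h => by
          rw [← fq_rt (e := e) k (hne u hu), h, fq_rt k (hne v hv)]
        have h1 : ∀ k, LI X' (fun y => ‖tm e φ (rt e c k y)‖) =
            LI (rt e c k '' X') (fun y => ‖φ y‖) := fun k => by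
          rw [LI_image hXm (fun y hy => rt_deriv k hy.2) (hinj k)]
          congr 1
          ext y
          rw [tm, norm_div, norm_pow, norm_inv, inv_pow, div_eq_inv_mul]
        simp only [h1]
        refine sum_LI_le _ ?_ (fun k _ => hXm.image_of_continuousOn_injOn
          (fun y hy => (rt_deriv k hy.2).continuousAt.continuousWithinAt) (hinj k)) ?_ _
        · intro i hi j hj hij
          refine disjoint_left.mpr ?_
          rintro _ ⟨u, hu, rfl⟩ ⟨v, hv, h⟩
          have : v = u := by rw [← fq_rt (e := e) j (hne v hv), h, fq_rt i (hne u hu)]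
          subst this
          exact hij (rt_inj (Finset.mem_range.mp hj) (Finset.mem_range.mp hi) h).symm
        · rintro k _ _ ⟨u, hu, rfl⟩
          rw [mem_preimage, fq_rt k (hne u hu)]
          exact hu.1

theorem sum_om_pow (m : ℕ) : ∑ k ∈ Finset.range (e + 1), (om e ^ m) ^ k =
    if (e + 1) ∣ m then ((e + 1 : ℕ) : ℂ) else 0 := by
  split_ifs with h
  · simp [((om_prim e).pow_eq_one_iff_dvd m).mpr h]
  · rw [geom_sum_eq (mt ((om_prim e).pow_eq_one_iff_dvd m).mp h), ← pow_mul, mul_comm, pow_mul,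
      (om_prim e).pow_eq_one]
    simp

/-- Push-forward of a simple pole. -/
theorem Tr_pole (he : 1 ≤ e) {p y : ℂ} (hp : p ≠ 0) (hy : y ≠ c) (hyp : y ≠ fq e c p) :
    Tr e c (fun z => (z - p)⁻¹) y =
      ((e + 1 : ℕ) * p ^ e)⁻¹ * ((y - fq e c p)⁻¹ - (y - c)⁻¹) := by
  have hd : ((e + 1 : ℕ) : ℂ) ≠ 0 := Nat.cast_ne_zero.mpr (Nat.succ_ne_zero e)
  have hx : y - c ≠ 0 := sub_ne_zero.mpr hy
  have hxp : y - c - p ^ (e + 1) ≠ 0 := fun h => hyp (by rw [fq]; linear_combination h)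
  set r := rt e c 0 y with hr
  have hrk : ∀ k, rt e c k y = om e ^ k * r := fun k => by simp [hr, rt]
  have hr1 : r ^ (e + 1) = y - c := rt_pow 0 hy
  have h1 : ∀ k, tm e (fun z => (z - p)⁻¹) (rt e c k y) =
      (((e + 1 : ℕ) * (y - c)) ^ 2 * (y - c - p ^ (e + 1)))⁻¹ *
        ∑ j ∈ Finset.range (e + 1), (om e ^ (j + 2)) ^ k * (r ^ (j + 2) * p ^ (e - j)) := by
    intro k
    have h2 := geom_sum₂_mul (rt e c k y) p (e + 1)
    rw [rt_pow k hy, Nat.add_sub_cancel] at h2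
    have h3 : rt e c k y - p ≠ 0 := right_ne_zero_of_mul (h2 ▸ hxp)
    have h4 : ∑ j ∈ Finset.range (e + 1), (om e ^ (j + 2)) ^ k * (r ^ (j + 2) * p ^ (e - j)) =
        rt e c k y ^ 2 * ∑ j ∈ Finset.range (e + 1), rt e c k y ^ j * p ^ (e - j) := by
      rw [Finset.mul_sum]
      refine Finset.sum_congr rfl fun j _ => ?_
      rw [hrk]
      ring
    have h5 := rt_ne (e := e) (c := c) k y
    rw [h4, tm, eq_div_of_mul_eq h3 h2, ← rt_pow (e := e) k hy]
    rw [← rt_pow (e := e) k hy] at hxp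
    field_simp
    ring
  rw [Tr]
  simp only [h1]
  rw [← Finset.mul_sum, Finset.sum_comm]
  simp only [← Finset.sum_mul, sum_om_pow]
  rw [Finset.sum_eq_single (e - 1)]
  · rw [show e - 1 + 2 = e + 1 by omega, if_pos dvd_rfl, hr1, show e - (e - 1) = 1 by omega, fq,
      ← sub_sub, sub_right_comm y (p ^ (e + 1)) c]
    field_simp
    ring
  · intro j hj hje
    have hj' := Finset.mem_range.mp hj
    rw [if_neg, zero_mul]
    rintro ⟨k, hk⟩
    rcases k with _ | _ | k
    · omega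
    · omega
    · nlinarith
  · intro h
    exact absurd (Finset.mem_range.mpr (by omega)) h

theorem Tr_sum {ι : Type*} (s : Finset ι) (a : ι → ℂ) (φ : ι → ℂ → ℂ) (y : ℂ) :
    Tr e c (fun z => ∑ i ∈ s, a i * φ i z) y = ∑ i ∈ s, a i * Tr e c (φ i) y := by
  simp only [Tr, tm, Finset.sum_div, Finset.mul_sum, mul_div_assoc]
  exact Finset.sum_comm

/-- The critical orbit. -/
noncomputable def cn (e : ℕ) (c : ℂ) (n : ℕ) : ℂ := (fq e c)^[n] c

/-- Inverse derivatives along the critical orbit. -/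
noncomputable def an (e : ℕ) (c : ℂ) (n : ℕ) : ℂ := (Pd e c c n)⁻¹

/-- Partial sums of inverse derivatives. -/
noncomputable def Sn (e : ℕ) (c : ℂ) (n : ℕ) : ℂ := ∑ j ∈ Finset.range (n + 1), an e c j

/-- The quadratic differential with poles on an initial piece of the critical orbit. -/
noncomputable def phi (e : ℕ) (c : ℂ) (N : ℕ) (z : ℂ) : ℂ :=
  ∑ j ∈ Finset.range (N + 1), an e c j * (z - cn e c j)⁻¹

/-- The defect of invariance. -/
noncomputable def Er (e : ℕ) (c : ℂ) (N : ℕ) (y : ℂ) : ℂ :=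
  Sn e c (N + 1) * (y - c)⁻¹ - an e c (N + 1) * (y - cn e c (N + 1))⁻¹

theorem cn_succ (n : ℕ) : cn e c (n + 1) = fq e c (cn e c n) := Function.iterate_succ_apply' _ _ _

theorem an_zero : an e c 0 = 1 := by simp [an, Pd_zero]

theorem an_succ (n : ℕ) : an e c (n + 1) = an e c n * ((e + 1 : ℕ) * cn e c n ^ e)⁻¹ := by
  rw [an, Pd_succ', mul_inv, mul_comm]
  rfl

@[fun_prop]
theorem measurable_phi (N : ℕ) : Measurable (phi e c N) := by
  unfold phi
  fun_prop

theorem phi_id (he : 1 ≤ e) (h0 : ∀ n, cn e c n ≠ 0) (N : ℕ) {y : ℂ} (hy : ∀ n, y ≠ cn e c n) :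
    phi e c N y = Tr e c (phi e c N) y + Er e c N y := by
  unfold phi
  rw [Tr_sum]
  have h1 : ∀ j, an e c j * Tr e c (fun z => (z - cn e c j)⁻¹) y =
      an e c (j + 1) * (y - cn e c (j + 1))⁻¹ - an e c (j + 1) * (y - c)⁻¹ := fun j => by
    rw [Tr_pole (c := c) he (h0 j) (hy 0) (by rw [← cn_succ]; exact hy _), an_succ, cn_succ]
    ring
  simp only [h1]
  rw [Finset.sum_sub_distrib, ← Finset.sum_mul, Er, Sn, Finset.sum_range_succ' (an e c),
    Finset.sum_range_succ (fun j => an e c (j + 1) * (y - cn e c (j + 1))⁻¹),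
    Finset.sum_range_succ' (fun j => an e c j * (y - cn e c j)⁻¹), an_zero]
  have : cn e c 0 = c := rfl
  rw [this]
  ring

end Pool.Agent.MP_28f8a1_an
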