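import Pool.Agent.MP_28f8a1_an.Meas

/-! Doubling weights and the size of the error terms. -/

set_option autoImplicit false

namespace Pool.Agent.MP_28f8a1_an

open MeasureTheory Metric Set Real Filter Topology
open scoped ENNReal

theorem gk_dbl (p x : ℂ) {r R : ℝ} (hr : 0 < r) (hrR : r ≤ R) :
    LI (ball x R) (gk p) ≤ ENNReal.ofReal (6 * (R / r) ^ 2) * LI (ball x r) (gk p) := by
  have hR : 0 < R := hr.trans_le hrR
  set d := ‖p - x‖ with hd
  have hd0 : 0 ≤ d := norm_nonneg _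
  have h1 : ENNReal.ofReal ((d + R)⁻¹ * (π * r ^ 2)) ≤ LI (ball x r) (gk p) := by
    rw [← LI_ball_const x hr.le (by positivity)]
    refine LI_mono_ae measurableSet_ball (measure_singleton p) fun z hz hzp => ?_
    rw [mem_ball, dist_eq_norm] at hz
    refine inv_anti₀ (norm_pos_iff.mpr (sub_ne_zero.mpr hzp)) ?_
    have := norm_sub_le_norm_sub_add_norm_sub z x p
    rw [norm_sub_rev x p] at this
    linarith
  have h2 : LI (ball x R) (gk p) ≤ ENNReal.ofReal (6 * π * R ^ 2 / (d + R)) := by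
    rcases le_or_gt d (2 * R) with h | h
    · refine (LI_gk_le p x R).trans (ENNReal.ofReal_le_ofReal ?_)
      rw [le_div_iff₀ (by positivity)]
      nlinarith [mul_pos pi_pos hR]
    · refine (LI_mono (v := fun _ => 6 / (d + R)) measurableSet_ball fun z hz => ?_).trans ?_
      · rw [mem_ball, dist_eq_norm] at hz
        have := norm_sub_le_norm_sub_add_norm_sub p z x
        rw [norm_sub_rev p z] at this
        rw [gk, inv_eq_one_div, div_le_div_iff₀ (by linarith) (by positivity)]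
        linarith
      · rw [LI_ball_const x hR.le (by positivity)]
        refine ENNReal.ofReal_le_ofReal (le_of_eq ?_)
        field_simp
  refine h2.trans (le_trans (le_of_eq ?_) (mul_le_mul_right h1 _))
  rw [← ENNReal.ofReal_mul (by positivity)]
  congr 1
  field_simp

/-- Weights that are doubling on discs far from `c`. -/
structure Wt (c : ℂ) (w : ℂ → ℝ) : Prop where
  meas : Measurable w
  nonneg : ∀ y, 0 ≤ w y
  dbl : ∀ x r R, 0 < r → r ≤ R → 2 * R ≤ ‖x - c‖ →
    LI (ball x R) w ≤ ENNReal.ofReal (54 * (R / r) ^ 2) * LI (ball x r) w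

variable {c : ℂ}

theorem Wt.add {u v : ℂ → ℝ} (hu : Wt c u) (hv : Wt c v) : Wt c (fun y => u y + v y) := by
  refine ⟨hu.meas.add hv.meas, fun y => add_nonneg (hu.nonneg y) (hv.nonneg y),
    fun x r R hr hrR hR => ?_⟩
  rw [LI_add measurableSet_ball hu.meas (fun y _ => hu.nonneg y) (fun y _ => hv.nonneg y),
    LI_add measurableSet_ball hu.meas (fun y _ => hu.nonneg y) (fun y _ => hv.nonneg y), mul_add]
  exact add_le_add (hu.dbl x r R hr hrR hR) (hv.dbl x r R hr hrR hR)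

theorem Wt.smul {u : ℂ → ℝ} (hu : Wt c u) {a : ℝ} (ha : 0 ≤ a) : Wt c (fun y => a * u y) := by
  refine ⟨hu.meas.const_mul a, fun y => mul_nonneg ha (hu.nonneg y), fun x r R hr hrR hR => ?_⟩
  rw [LI_const_mul _ ha, LI_const_mul _ ha, mul_left_comm]
  exact mul_le_mul_right (hu.dbl x r R hr hrR hR) _

theorem wt_gk (p : ℂ) : Wt c (gk p) := by
  refine ⟨measurable_gk p, gk_nonneg p, fun x r R hr hrR _ => (gk_dbl p x hr hrR).trans ?_⟩
  gcongr
  norm_num

/-- A decaying factor. -/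
noncomputable def lam (D s : ℝ) : ℝ := min s⁻¹ (4 * D / s ^ 2)

theorem lam_nonneg {D s : ℝ} (hD : 0 ≤ D) (hs : 0 ≤ s) : 0 ≤ lam D s :=
  le_min (by positivity) (by positivity)

theorem lam_cmp {D s s' : ℝ} (hD : 0 ≤ D) (hs' : 0 < s') (h : s' ≤ 3 * s) :
    lam D s ≤ 9 * lam D s' := by
  have hs : 0 < s := by linarith
  rw [lam, lam, mul_min_of_nonneg _ _ (by norm_num)]
  refine min_le_min ?_ ?_
  · rw [← div_eq_mul_inv, inv_eq_one_div, div_le_div_iff₀ hs hs']
    linarith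
  · rw [← mul_div_assoc, div_le_div_iff₀ (by positivity) (by positivity)]
    have : s' ^ 2 ≤ (3 * s) ^ 2 := by gcongr
    nlinarith

theorem lam_anti {D s s' : ℝ} (hD : 0 ≤ D) (hs' : 0 < s') (h : s' ≤ s) : lam D s ≤ lam D s' :=
  min_le_min (inv_anti₀ hs' h) (by gcongr)

theorem wt_lam {D : ℝ} (hD : 0 ≤ D) (p : ℂ) : Wt c (fun y => lam D ‖y - c‖ * gk p y) := by
  refine ⟨?_, fun y => mul_nonneg (lam_nonneg hD (norm_nonneg _)) (gk_nonneg _ _),
    fun x r R hr hrR hR => ?_⟩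
  · unfold lam
    fun_prop
  have hx : 0 < ‖x - c‖ := by linarith
  have hin : ∀ y ∈ ball x R, ‖x - c‖ / 2 ≤ ‖y - c‖ ∧ ‖y - c‖ ≤ 3 * (‖x - c‖ / 2) := by
    intro y hy
    rw [mem_ball, dist_eq_norm] at hy
    have h1 := abs_le.mp (abs_norm_sub_norm_le (y - c) (x - c))
    rw [sub_sub_sub_cancel_right] at h1
    constructor <;> linarith [h1.1, h1.2]
  have hl := lam_nonneg hD (s := ‖x - c‖ / 2) (by positivity)
  calc LI (ball x R) (fun y => lam D ‖y - c‖ * gk p y)
      ≤ LI (ball x R) (fun y => lam D (‖x - c‖ / 2) * gk p y) :=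
        LI_mono measurableSet_ball fun y hy =>
          mul_le_mul_of_nonneg_right (lam_anti hD (by positivity) (hin y hy).1) (gk_nonneg _ _)
    _ ≤ ENNReal.ofReal (lam D (‖x - c‖ / 2)) *
          (ENNReal.ofReal (6 * (R / r) ^ 2) * LI (ball x r) (gk p)) := by
        rw [LI_const_mul _ hl]
        exact mul_le_mul_right (gk_dbl p x hr hrR) _
    _ = ENNReal.ofReal (6 * (R / r) ^ 2) * LI (ball x r) (fun y => lam D (‖x - c‖ / 2) * gk p y) := by
        rw [LI_const_mul _ hl, mul_left_comm]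
    _ ≤ ENNReal.ofReal (6 * (R / r) ^ 2) *
          LI (ball x r) (fun y => 9 * (lam D ‖y - c‖ * gk p y)) := by
        refine mul_le_mul_right (LI_mono measurableSet_ball fun y hy => ?_) _
        have h1 := hin y (ball_subset_ball hrR hy)
        rw [← mul_assoc]
        exact mul_le_mul_of_nonneg_right (lam_cmp hD (by linarith [h1.1]) h1.2) (gk_nonneg _ _)
    _ = _ := by
        rw [LI_const_mul _ (by norm_num), ← mul_assoc, ← ENNReal.ofReal_mul (by positivity)]
        congr 2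
        ring

theorem measurableSet_far (c : ℂ) (a : ℝ) : MeasurableSet {y : ℂ | a ≤ ‖y - c‖} :=
  measurableSet_le measurable_const (by fun_prop)

theorem LI_lam {D k : ℝ} (hD : 0 ≤ D) (hk : 1 ≤ k) {p : ℂ} (hp : ‖p - c‖ ≤ D) (n : ℕ) :
    ∀ a : ℝ, 0 < a → 2 * D ≤ k ^ n * a →
      LI {y | a ≤ ‖y - c‖} (fun y => lam D ‖y - c‖ * gk p y) ≤
        ENNReal.ofReal ((2 * n + 8) * π * k) := by
  induction n with
  | zero =>
    intro a ha h
    rw [pow_zero, one_mul] at h
    calc _ ≤ LI {y | a ≤ ‖y - c‖} (fun y => 8 * D * (‖y - c‖ ^ 3)⁻¹) := by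
          refine LI_mono (measurableSet_far c a) fun y hy => ?_
          have hy : a ≤ ‖y - c‖ := hy
          have h1 := norm_sub_le_norm_sub_add_norm_sub y p c
          have h2 : 0 < ‖y - c‖ := ha.trans_le hy
          have h3 : gk p y ≤ (‖y - c‖ / 2)⁻¹ := inv_anti₀ (by positivity) (by linarith)
          refine (mul_le_mul (min_le_right _ _) h3 (gk_nonneg _ _) (by positivity)).trans_eq ?_
          field_simp
          ring
      _ ≤ ENNReal.ofReal (8 * D) * ENNReal.ofReal (2 * π / a) := by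
          rw [LI_const_mul _ (by positivity)]
          exact mul_le_mul_right (LI_cube c ha) _
      _ ≤ _ := by
          rw [← ENNReal.ofReal_mul (by positivity)]
          refine ENNReal.ofReal_le_ofReal ?_
          rw [← mul_div_assoc, div_le_iff₀ ha]
          have : a ≤ k * a := by nlinarith
          simp only [Nat.cast_zero]
          nlinarith [pi_pos]
  | succ n ih =>
    intro a ha h
    have hka : 0 < k * a := by positivity
    have h1 : {y : ℂ | a ≤ ‖y - c‖} ⊆ ({y | a ≤ ‖y - c‖} ∩ ball c (k * a)) ∪ {y | k * a ≤ ‖y - c‖} := by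
      intro y hy
      rcases lt_or_ge ‖y - c‖ (k * a) with h2 | h2
      · exact Or.inl ⟨hy, by rwa [mem_ball, dist_eq_norm]⟩
      · exact Or.inr h2
    refine (LI_mono_set h1 _).trans ((LI_union_le _ _ _).trans ?_)
    have h2 : LI ({y | a ≤ ‖y - c‖} ∩ ball c (k * a)) (fun y => lam D ‖y - c‖ * gk p y) ≤
        ENNReal.ofReal (2 * π * k) := by
      calc _ ≤ LI ({y | a ≤ ‖y - c‖} ∩ ball c (k * a)) (fun y => a⁻¹ * gk p y) :=
            LI_mono ((measurableSet_far c a).inter measurableSet_ball) fun y hy =>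
              mul_le_mul_of_nonneg_right ((min_le_left _ _).trans (inv_anti₀ ha hy.1))
                (gk_nonneg _ _)
        _ ≤ ENNReal.ofReal a⁻¹ * ENNReal.ofReal (2 * π * (k * a)) := by
            rw [LI_const_mul _ (by positivity)]
            exact mul_le_mul_right ((LI_mono_set inter_subset_right _).trans (LI_gk_le _ _ _)) _
        _ = _ := by
            rw [← ENNReal.ofReal_mul (by positivity)]
            congr 1
            field_simp
    refine (add_le_add h2 (ih (k * a) hka (by rwa [← mul_assoc, ← pow_succ]))).trans_eq ?_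
    rw [← ENNReal.ofReal_add (by positivity) (by positivity)]
    congr 1
    push_cast
    ring

/-- The basic error function. -/
noncomputable def Gd (δ δ' x : ℂ) : ℂ := (x * (x - δ))⁻¹ - (x * (x - δ'))⁻¹

/-- Its majorant away from `c`. -/
noncomputable def wG (c δ δ' : ℂ) (y : ℂ) : ℝ :=
  lam ‖δ'‖ ‖y - c‖ * gk (c + δ) y + lam ‖δ'‖ ‖y - c‖ * gk (c + δ') y

theorem wt_wG (δ δ' : ℂ) : Wt c (wG c δ δ') :=
  (wt_lam (norm_nonneg _) _).add (wt_lam (norm_nonneg _) _)

theorem Gd_le {δ δ' y : ℂ} (hδ : ‖δ‖ ≤ ‖δ'‖) (hy : y ≠ c) :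
    ‖Gd δ δ' (y - c)‖ ≤ wG c δ δ' y := by
  have hx : 0 < ‖y - c‖ := norm_pos_iff.mpr (sub_ne_zero.mpr hy)
  simp only [wG, gk, ← sub_sub, Gd]
  set x := y - c
  rcases le_or_gt ‖x‖ (4 * ‖δ'‖) with h | h
  · have : lam ‖δ'‖ ‖x‖ = ‖x‖⁻¹ := by
      refine min_eq_left ?_
      rw [inv_eq_one_div, div_le_div_iff₀ hx (by positivity)]
      nlinarith
    rw [this]
    refine (norm_sub_le _ _).trans_eq ?_
    simp only [norm_inv, norm_mul, mul_inv]
  · have h0 := norm_nonneg δ'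
    have h1 : 3 / 4 * ‖x‖ ≤ ‖x - δ‖ := by linarith [norm_sub_norm_le x δ]
    have h2 : 3 / 4 * ‖x‖ ≤ ‖x - δ'‖ := by linarith [norm_sub_norm_le x δ']
    have h3 : x - δ ≠ 0 := norm_pos_iff.mp (by linarith)
    have h4 : x - δ' ≠ 0 := norm_pos_iff.mp (by linarith)
    have h5 : x ≠ 0 := norm_pos_iff.mp hx
    have : lam ‖δ'‖ ‖x‖ = 4 * ‖δ'‖ / ‖x‖ ^ 2 := by
      refine min_eq_right ?_
      rw [inv_eq_one_div, div_le_div_iff₀ (by positivity) hx]
      nlinarith
    rw [this, show (x * (x - δ))⁻¹ - (x * (x - δ'))⁻¹ = (δ - δ') / (x * (x - δ')) * (x - δ)⁻¹ by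
      field_simp; ring, norm_mul, norm_inv]
    refine le_add_of_le_of_nonneg ?_ (by positivity)
    gcongr
    rw [norm_div, norm_mul, div_le_div_iff₀ (by positivity) (by positivity)]
    have h6 : ‖δ - δ'‖ ≤ 2 * ‖δ'‖ := by linarith [norm_sub_le δ δ']
    have h7 : ‖δ - δ'‖ * ‖x‖ ^ 2 ≤ 2 * ‖δ'‖ * ‖x‖ ^ 2 := by gcongr
    have h8 : 4 * ‖δ'‖ * (‖x‖ * (3 / 4 * ‖x‖)) ≤ 4 * ‖δ'‖ * (‖x‖ * ‖x - δ'‖) := by gcongr
    nlinarith [mul_nonneg h0 (sq_nonneg ‖x‖)]

theorem LI_wG {δ δ' : ℂ} (hδ : ‖δ‖ ≤ ‖δ'‖) {k a : ℝ} (hk : 1 ≤ k) (ha : 0 < a) {n : ℕ}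
    (h : 2 * ‖δ'‖ ≤ k ^ n * a) :
    LI {y | a ≤ ‖y - c‖} (wG c δ δ') ≤ ENNReal.ofReal ((4 * n + 16) * π * k) := by
  refine (LI_add_le _ (wt_lam (norm_nonneg _) _).meas _).trans ?_
  refine (add_le_add (LI_lam (norm_nonneg _) hk (by simpa using hδ) n a ha h)
    (LI_lam (norm_nonneg _) hk (by simp) n a ha h)).trans_eq ?_
  rw [← ENNReal.ofReal_add (by positivity) (by positivity)]
  congr 1
  ring

theorem LI_pair {δ : ℂ} {a : ℝ} (ha : 0 < a) (hδ : a ≤ ‖δ‖) :
    LI (ball c a) (fun y => ‖((y - c) * (y - c - δ))⁻¹‖) ≤ ENNReal.ofReal (4 * π) := by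
  have hδ0 : δ ≠ 0 := norm_pos_iff.mp (ha.trans_le hδ)
  calc _ ≤ LI (ball c a) (fun y => a⁻¹ * (gk (c + δ) y + gk c y)) := by
        refine LI_mono measurableSet_ball fun y _ => ?_
        simp only [gk, ← sub_sub]
        set x := y - c
        by_cases h1 : x = 0
        · simp only [h1, zero_mul, inv_zero, norm_zero]
          positivity
        by_cases h2 : x - δ = 0
        · simp only [h2, mul_zero, inv_zero, norm_zero]
          positivity
        rw [show (x * (x - δ))⁻¹ = δ⁻¹ * ((x - δ)⁻¹ - x⁻¹) by field_simp; ring, norm_mul, norm_inv,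
          ← norm_inv (x - δ), ← norm_inv x]
        exact mul_le_mul (inv_anti₀ ha hδ) (norm_sub_le _ _) (norm_nonneg _) (by positivity)
    _ ≤ ENNReal.ofReal a⁻¹ * (ENNReal.ofReal (2 * π * a) + ENNReal.ofReal (2 * π * a)) := by
        rw [LI_const_mul _ (by positivity)]
        exact mul_le_mul_right ((LI_add_le _ (measurable_gk _) _).trans
          (add_le_add (LI_gk_le _ _ _) (LI_gk_le _ _ _))) _
    _ = _ := by
        rw [← ENNReal.ofReal_add (by positivity) (by positivity),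
          ← ENNReal.ofReal_mul (by positivity)]
        congr 1
        field_simp
        ring

theorem LI_Gd {δ δ' : ℂ} (hδ0 : δ ≠ 0) (hδ : ‖δ‖ ≤ ‖δ'‖) {k : ℝ} (hk : 1 ≤ k) {n : ℕ}
    (h : 2 * ‖δ'‖ ≤ k ^ n * ‖δ‖) :
    LI univ (fun y => ‖Gd δ δ' (y - c)‖) ≤ ENNReal.ofReal ((4 * n + 24) * π * k) := by
  have ha : 0 < ‖δ‖ := norm_pos_iff.mpr hδ0
  have h1 : (univ : Set ℂ) ⊆ ball c ‖δ‖ ∪ {y | ‖δ‖ ≤ ‖y - c‖} := by
    intro y _
    rcases lt_or_ge ‖y - c‖ ‖δ‖ with h2 | h2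
    · exact Or.inl (by rwa [mem_ball, dist_eq_norm])
    · exact Or.inr h2
  refine (LI_mono_set h1 _).trans ((LI_union_le _ _ _).trans ?_)
  have h2 : LI (ball c ‖δ‖) (fun y => ‖Gd δ δ' (y - c)‖) ≤
      ENNReal.ofReal (4 * π) + ENNReal.ofReal (4 * π) :=
    (LI_mono measurableSet_ball fun y _ => norm_sub_le _ _).trans
      ((LI_add_le _ (by fun_prop) _).trans (add_le_add (LI_pair ha le_rfl) (LI_pair ha hδ)))
  have h3 : LI {y | ‖δ‖ ≤ ‖y - c‖} (fun y => ‖Gd δ δ' (y - c)‖) ≤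
      ENNReal.ofReal ((4 * n + 16) * π * k) := by
    refine le_trans (LI_mono (measurableSet_far c _) fun y hy => Gd_le hδ ?_) (LI_wG hδ hk ha h)
    rintro rfl
    simp only [mem_ofPred_eq, sub_self, norm_zero] at hy
    linarith
  refine (add_le_add h2 h3).trans ?_
  rw [← ENNReal.ofReal_add (by positivity) (by positivity),
    ← ENNReal.ofReal_add (by positivity) (by positivity)]
  refine ENNReal.ofReal_le_ofReal ?_
  nlinarith [pi_pos]

end Pool.Agent.MP_28f8a1_an
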